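import Pool.Agent.W353.FB.Abel

/-!
# Mean values of continuous functions from the moments
-/

set_option autoImplicit false

namespace Pool.Agent.TH129.ST

open Filter Topology Set MeasureTheory NumberField IsDedekindDomain
open Pool.Agent.W353.SP (Bd Mn Hs)

/-- the box -/
def box (m : ℕ) (R : ℝ) : Set (Fin m → ℝ) := Set.pi Set.univ fun _ => Set.Icc (-R) R

theorem mem_box {m : ℕ} {R : ℝ} {x : Fin m → ℝ} : x ∈ box m R ↔ ∀ a, |x a| ≤ R := by
  unfold box
  rw [Set.mem_univ_pi]
  exact forall_congr' fun a => by rw [Set.mem_Icc, abs_le]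

theorem isCompact_box (m : ℕ) (R : ℝ) : IsCompact (box m R) :=
  isCompact_univ_pi fun _ => isCompact_Icc

/-- polynomial approximation -/
theorem weier {m : ℕ} (R : ℝ) {F : (Fin m → ℝ) → ℝ} (hF : Continuous F) {ε : ℝ} (hε : 0 < ε) :
    ∃ p : MvPolynomial (Fin m) ℝ, ∀ x ∈ box m R, |F x - MvPolynomial.eval x p| ≤ ε := by
  have hcs : CompactSpace (box m R) := isCompact_iff_compactSpace.mp (isCompact_box m R)
  set g : Fin m → C(box m R, ℝ) := fun k => ⟨fun x => x.1 k, (continuous_apply k).comp continuous_subtype_val⟩ with hg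
  set φ : MvPolynomial (Fin m) ℝ →ₐ[ℝ] C(box m R, ℝ) := MvPolynomial.aeval g with hφ
  have hev : ∀ (p : MvPolynomial (Fin m) ℝ) (x : box m R), φ p x = MvPolynomial.eval x.1 p := by
    intro p x
    induction p using MvPolynomial.induction_on with
    | C a =>
      rw [hφ, MvPolynomial.aeval_C, MvPolynomial.eval_C]
      rfl
    | add p q hp hq =>
      rw [map_add, map_add, ContinuousMap.add_apply, hp, hq]
    | mul_X p k hp =>
      rw [map_mul, map_mul, ContinuousMap.mul_apply, hp, hφ, MvPolynomial.aeval_X,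
        MvPolynomial.eval_X]
      rfl
  have hsep : φ.range.SeparatesPoints := by
    intro x y hxy
    have h1 : ∃ k, x.1 k ≠ y.1 k := by
      by_contra hcon
      rw [not_exists] at hcon
      exact hxy (Subtype.ext (funext fun k => not_not.mp (hcon k)))
    obtain ⟨k, hk⟩ := h1
    refine ⟨fun z => φ (MvPolynomial.X k) z, ⟨φ (MvPolynomial.X k), ⟨MvPolynomial.X k, rfl⟩, rfl⟩, ?_⟩
    simp only
    rw [hev, hev, MvPolynomial.eval_X, MvPolynomial.eval_X]
    exact hk
  set f : C(box m R, ℝ) := ⟨fun x => F x.1, hF.comp continuous_subtype_val⟩ with hf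
  obtain ⟨⟨q, ⟨p, hp⟩⟩, hq⟩ :=
    ContinuousMap.exists_mem_subalgebra_near_continuousMap_of_separatesPoints φ.range hsep f ε hε
  refine ⟨p, fun x hx => ?_⟩
  have h1 := (ContinuousMap.norm_coe_le_norm (q - f) ⟨x, hx⟩).trans hq.le
  have h2 : (q - f) ⟨x, hx⟩ = MvPolynomial.eval x p - F x := by
    rw [ContinuousMap.sub_apply, ← hev p ⟨x, hx⟩]
    have h3 : (φ : MvPolynomial (Fin m) ℝ → C(box m R, ℝ)) p = q := hp
    rw [h3]
    rfl
  rw [h2, Real.norm_eq_abs, abs_sub_comm] at h1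
  exact h1

section
variable {K : Type} [Field K] [NumberField K] {ι : Type} {l : Filter ι}
  {E : ι → (HeightOneSpectrum (𝓞 K) → ℝ) → ℝ}

/-- a bound for the difference of mean values -/
theorem close (h : Mn l E) {f g : HeightOneSpectrum (𝓞 K) → ℝ} (hf : Bd f) (hg : Bd g) {ε : ℝ}
    (hε : 0 < ε) (hfg : ∀ v, |f v - g v| ≤ ε) : ∀ᶠ i in l, |E i f - E i g| ≤ 2 * ε := by
  have hgb : Bd fun v => g v + ε * 1 := hg.add (Bd.const (ε * 1))
  have hfb : Bd fun v => f v + ε * 1 := hf.add (Bd.const (ε * 1))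
  have h1 := h.mono f _ hf hgb fun v => by
    have := (abs_le.mp (hfg v)).2
    linarith
  have h2 := h.mono g _ hg hfb fun v => by
    have := (abs_le.mp (hfg v)).1
    linarith
  have h3 := h.add g (fun _ => ε * 1) hg (Bd.const (ε * 1))
  have h4 := h.add f (fun _ => ε * 1) hf (Bd.const (ε * 1))
  have h5 := h.one.eventually_lt_const (show (1 : ℝ) < 2 by norm_num)
  filter_upwards [h1, h2, h3, h4, h5] with i e1 e2 e3 e4 e5
  have e6 := h.smul ε (fun _ => 1) i
  rw [e3, e6] at e1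
  rw [e4, e6] at e2
  have e7 : ε * E i (fun _ => 1) ≤ 2 * ε := by nlinarith
  rw [abs_le]
  constructor <;> linarith

/-- uniform limits of functions with a mean value -/
theorem hs_limit [l.NeBot] (h : Mn l E) {f : HeightOneSpectrum (𝓞 K) → ℝ} (hf : Bd f)
    (happ : ∀ ε : ℝ, 0 < ε → ∃ (g : HeightOneSpectrum (𝓞 K) → ℝ) (r : ℝ), Hs l E g r ∧
      ∀ v, |f v - g v| ≤ ε) : ∃ r : ℝ, Hs l E f r := by
  have hc : Cauchy (map (fun i => E i f) l) := by
    rw [Metric.cauchy_iff]
    refine ⟨map_neBot, fun ε hε => ?_⟩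
    obtain ⟨g, r, hg, hfg⟩ := happ (ε / 8) (by positivity)
    have h1 := close h hf hg.1 (show 0 < ε / 8 by positivity) hfg
    have h2 := Metric.tendsto_nhds.mp hg.2 (ε / 8) (by positivity)
    refine ⟨{x | |x - r| < ε / 2}, ?_, fun x hx y hy => ?_⟩
    · rw [Filter.mem_map]
      filter_upwards [h1, h2] with i e1 e2
      rw [Real.dist_eq] at e2
      have e3 := abs_add_le (E i f - E i g) (E i g - r)
      rw [sub_add_sub_cancel] at e3
      change |E i f - r| < ε / 2
      linarith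
    · rw [Real.dist_eq]
      have e3 := abs_add_le (x - r) (r - y)
      rw [sub_add_sub_cancel, abs_sub_comm r y] at e3
      have hx' : |x - r| < ε / 2 := hx
      have hy' : |y - r| < ε / 2 := hy
      linarith
  obtain ⟨r, hr⟩ := CompleteSpace.complete hc
  exact ⟨r, hf, hr⟩

/-- uniform limits with a given limit -/
theorem hs_limit_eq (h : Mn l E) {f : HeightOneSpectrum (𝓞 K) → ℝ} (hf : Bd f)
    {r : ℝ} (happ : ∀ ε : ℝ, 0 < ε → ∃ (g : HeightOneSpectrum (𝓞 K) → ℝ) (s : ℝ), Hs l E g s ∧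
      (∀ v, |f v - g v| ≤ ε) ∧ |s - r| ≤ ε) : Hs l E f r := by
  refine ⟨hf, ?_⟩
  rw [Metric.tendsto_nhds]
  intro ε hε
  obtain ⟨g, s, hg, hfg, hs⟩ := happ (ε / 8) (by positivity)
  have h1 := close h hf hg.1 (show 0 < ε / 8 by positivity) hfg
  have h2 := Metric.tendsto_nhds.mp hg.2 (ε / 8) (by positivity)
  filter_upwards [h1, h2] with i e1 e2
  rw [Real.dist_eq] at e2 ⊢
  have e3 := abs_add_le (E i f - E i g) (E i g - s)
  rw [sub_add_sub_cancel] at e3
  have e4 := abs_add_le (E i f - s) (s - r)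
  rw [sub_add_sub_cancel] at e4
  linarith

variable {m : ℕ} {R : ℝ} {y : HeightOneSpectrum (𝓞 K) → Fin m → ℝ}

theorem bd_mono (hy : ∀ v a, |y v a| ≤ R) (e : Fin m → ℕ) : Bd fun v => ∏ a, y v a ^ e a := by
  refine ⟨∏ a, |R| ^ e a, fun v => ?_⟩
  rw [Finset.abs_prod]
  refine Finset.prod_le_prod (fun a _ => abs_nonneg _) fun a _ => ?_
  rw [abs_pow]
  exact pow_le_pow_left₀ (abs_nonneg _) ((hy v a).trans (le_abs_self R)) _

/-- polynomials -/
theorem hs_poly (h : Mn l E) {M : (Fin m → ℕ) → ℝ}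
    (hmon : ∀ e : Fin m → ℕ, Hs l E (fun v => ∏ a, y v a ^ e a) (M e))
    (p : MvPolynomial (Fin m) ℝ) :
    Hs l E (fun v => MvPolynomial.eval (y v) p) (∑ d ∈ p.support, p.coeff d * M d) := by
  have h1 := h.hsSum p.support (f := fun d v => p.coeff d * ∏ a, y v a ^ d a)
    (a := fun d => p.coeff d * M d) fun d _ => h.hsMul (hmon d) (p.coeff d)
  exact h1.congr (fun v => by rw [MvPolynomial.eval_eq']) rfl

theorem bd_cont (hy : ∀ v a, |y v a| ≤ R) {F : (Fin m → ℝ) → ℝ} (hF : Continuous F) :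
    Bd fun v => F (y v) := by
  obtain ⟨C, hC⟩ := (isCompact_box m R).exists_bound_of_continuousOn hF.continuousOn
  exact ⟨C, fun v => hC (y v) (mem_box.mpr (hy v))⟩

/-- **Mean values of continuous functions exist if the moments exist.** -/
theorem hs_cont [l.NeBot] (h : Mn l E) (hy : ∀ v a, |y v a| ≤ R) {M : (Fin m → ℕ) → ℝ}
    (hmon : ∀ e : Fin m → ℕ, Hs l E (fun v => ∏ a, y v a ^ e a) (M e))
    {F : (Fin m → ℝ) → ℝ} (hF : Continuous F) : ∃ r : ℝ, Hs l E (fun v => F (y v)) r := by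
  refine hs_limit h (bd_cont hy hF) fun ε hε => ?_
  obtain ⟨p, hp⟩ := weier R hF hε
  exact ⟨_, _, hs_poly h hmon p, fun v => hp (y v) (mem_box.mpr (hy v))⟩

variable {ν : Measure (Fin m → ℝ)} [IsProbabilityMeasure ν]

theorem integrable_cont (hν : ν (box m R)ᶜ = 0) {F : (Fin m → ℝ) → ℝ} (hF : Continuous F) :
    Integrable F ν := by
  obtain ⟨C, hC⟩ := (isCompact_box m R).exists_bound_of_continuousOn hF.continuousOn
  refine Integrable.of_bound hF.aestronglyMeasurable C ?_
  have h1 : ∀ᵐ x ∂ν, x ∈ box m R := by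
    rw [ae_iff]
    exact hν
  filter_upwards [h1] with x hx
  exact hC x hx

/-- **The mean values are the integrals if the moments are.** -/
theorem hs_meas (h : Mn l E) (hy : ∀ v a, |y v a| ≤ R) (hν : ν (box m R)ᶜ = 0)
    (hmon : ∀ e : Fin m → ℕ, Hs l E (fun v => ∏ a, y v a ^ e a) (∫ x, ∏ a, x a ^ e a ∂ν))
    {F : (Fin m → ℝ) → ℝ} (hF : Continuous F) : Hs l E (fun v => F (y v)) (∫ x, F x ∂ν) := by
  refine hs_limit_eq h (bd_cont hy hF) fun ε hε => ?_
  obtain ⟨p, hp⟩ := weier R hF hε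
  refine ⟨_, _, hs_poly h hmon p, fun v => hp (y v) (mem_box.mpr (hy v)), ?_⟩
  have hpc : Continuous fun x : Fin m → ℝ => MvPolynomial.eval x p := MvPolynomial.continuous_eval p
  have h1 : ∑ d ∈ p.support, p.coeff d * ∫ x, ∏ a, x a ^ d a ∂ν =
      ∫ x, MvPolynomial.eval x p ∂ν := by
    have h2 : (fun x : Fin m → ℝ => MvPolynomial.eval x p) =
        fun x => ∑ d ∈ p.support, p.coeff d * ∏ a, x a ^ d a := by
      funext x
      exact MvPolynomial.eval_eq' x p
    rw [h2, integral_finsetSum]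
    · refine Finset.sum_congr rfl fun d _ => ?_
      rw [integral_const_mul]
    · intro d _
      refine (integrable_cont hν ?_).const_mul _
      exact continuous_finsetProd _ fun a _ => (continuous_apply a).pow _
  rw [h1, ← integral_sub (integrable_cont hν hpc) (integrable_cont hν hF)]
  have h3 : ∀ᵐ x ∂ν, x ∈ box m R := by
    rw [ae_iff]
    exact hν
  have h4 := norm_integral_le_of_norm_le_const (μ := ν)
    (f := fun x => MvPolynomial.eval x p - F x) (C := ε) (by
      filter_upwards [h3] with x hx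
      rw [Real.norm_eq_abs, abs_sub_comm]
      exact hp x hx)
  rw [probReal_univ, mul_one] at h4
  exact h4

end

end Pool.Agent.TH129.ST
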