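import Pool.Agent.TH129.ST.Words
import Pool.Agent.TH129.ST.Weier

/-!
# The distribution of the normalised characteristic polynomials and the point `1`
-/

set_option autoImplicit false

namespace Pool.Agent.TH129.ST

open Filter Topology Set Polynomial NumberField IsDedekindDomain MeasureTheory
open Pool.Agent.TH129.EM
open Pool.Agent.W353.SP (Bd Mn Hs EN mnN)
open Pool.Agent.W353.FB (EA mnA EA_lim)
open Pool.Agent.W353.EF (IsFrobenius)

section
variable {K : Type} [Field K] [NumberField K] {l : ℕ} {X : Set (MvPolynomial (Fin l) (𝓞 K))}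
  {d i N : ℕ} {α : HeightOneSpectrum (𝓞 K) → Fin N → ℂ}

theorem bd_cbm {m : ℕ} (I e : Fin m → ℕ) : Bd fun v => ∏ a, cb i α (I a) v ^ e a :=
  bd_mono (y := fun v a => cb i α (I a) v) (R := 2 ^ N) (fun v a => abs_cb_le i α (I a) v) e

/-- the analytic mean value of a monomial -/
theorem moment_EA (hi : i ≤ 2 * d) (hα : ∀ᶠ v in cofinite, IsFrobenius X d i v (α v))
    {m : ℕ} {I e : Fin m → ℕ} {B : HeightOneSpectrum (𝓞 K) → ℂ[X]} {k : ℤ}
    (hB : IsTensorSystem i α I e B) (hk : HasPoleOrder B k) :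
    Hs (𝓝[>] 1) (EA K) (fun v => ∏ a, cb i α (I a) v ^ e a) (sgn I e * k) := by
  obtain ⟨n, hn⟩ := unitSystem hi hα hB
  have hb : Bd fun v => sgn I e * ∏ a, cb i α (I a) v ^ e a :=
    (Bd.const (sgn I e)).mul (bd_cbm I e)
  have h1 : Hs (𝓝[>] 1) (EA K) (fun v => sgn I e * ∏ a, cb i α (I a) v ^ e a) k :=
    ⟨hb, poleOrder_EA hb hn hk⟩
  refine ((mnA K).hsMul h1 (sgn I e)).congr (fun v => ?_) rfl
  rw [← mul_assoc, sgn_sq, one_mul]

theorem moment_cb (hα : ∀ᶠ v in cofinite, IsFrobenius X d i v (α v)) {m : ℕ} (I e : Fin m → ℕ) :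
    ∀ᶠ v in cofinite, moment i α I e v = ∏ a, cb i α (I a) v ^ e a := by
  filter_upwards [cb_eq hα] with v hv
  unfold moment
  exact Finset.prod_congr rfl fun a _ => by rw [hv]

/-- **The moment law.** -/
theorem momentLaw (hi : i ≤ 2 * d) (hα : ∀ᶠ v in cofinite, IsFrobenius X d i v (α v)) :
    MomentLaw i α := by
  intro m I e B k hB hk
  have h1 := moment_EA hi hα hB hk
  refine ⟨(logMean_iff (bd_cbm I e) (moment_cb hα I e) _).mpr h1.2, fun r hr => ?_⟩
  have h2 := mean_EN (bd_cbm I e) (moment_cb hα I e) hr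
  have h3 := EA_lim (bd_cbm I e) h2
  exact tendsto_nhds_unique h3 h1.2

theorem cont_cb (hα : ∀ᶠ v in cofinite, IsFrobenius X d i v (α v)) {m : ℕ} (I : Fin m → ℕ)
    (F : (Fin m → ℝ) → ℝ) : ∀ᶠ v in cofinite, (F fun a => coeff i α (I a) v) =
      F fun a => cb i α (I a) v := by
  filter_upwards [cb_eq hα] with v hv
  congr 1
  funext a
  exact hv (I a)

theorem log_cont (hα : ∀ᶠ v in cofinite, IsFrobenius X d i v (α v)) {m : ℕ} (I : Fin m → ℕ)
    {F : (Fin m → ℝ) → ℝ} (hF : Continuous F) (r : ℝ) :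
    Tendsto (logMean fun v => F fun a => coeff i α (I a) v) atTop (𝓝 r) ↔
      Tendsto (fun s => EA K s fun v => F fun a => cb i α (I a) v) (𝓝[>] 1) (𝓝 r) :=
  logMean_iff (bd_cont (y := fun v a => cb i α (I a) v) (R := 2 ^ N)
    (fun v a => abs_cb_le i α (I a) v) hF) (cont_cb hα I F) r

/-- **The law of the joint distribution.** -/
theorem distributionLaw (hi : i ≤ 2 * d) (hα : ∀ᶠ v in cofinite, IsFrobenius X d i v (α v))
    {m : ℕ} (I : Fin m → ℕ) : DistributionLaw i α I := by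
  have hy : ∀ (v : HeightOneSpectrum (𝓞 K)) (a : Fin m), |cb i α (I a) v| ≤ 2 ^ N :=
    fun v a => abs_cb_le i α (I a) v
  refine ⟨fun ν hν hbox => ⟨fun h F hF => ?_, fun h e B k hB hk => ?_, fun h F hF => ?_⟩,
    fun h F hF => ?_⟩
  · have hb := bd_cont (y := fun v a => cb i α (I a) v) hy hF
    have h1 := mean_EN hb (cont_cb hα I F) (h F hF)
    exact (log_cont hα I hF _).mpr (EA_lim hb h1)
  · have hF : Continuous fun x : Fin m → ℝ => ∏ a, x a ^ e a :=
      continuous_finsetProd _ fun a _ => (continuous_apply a).pow _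
    have h1 := (log_cont hα I hF _).mp (h _ hF)
    have h2 := (moment_EA hi hα hB hk).2
    have h3 := tendsto_nhds_unique h1 h2
    rw [h3, ← mul_assoc, sgn_sq, one_mul]
  · have hν0 : ν (box m (2 ^ N))ᶜ = 0 := by
      have h1 : ∀ᵐ x ∂ν, x ∈ box m (2 ^ N) := hbox.mono fun x hx => mem_box.mpr hx
      rwa [ae_iff] at h1
    have hmon : ∀ e : Fin m → ℕ, Hs (𝓝[>] 1) (EA K) (fun v => ∏ a, cb i α (I a) v ^ e a)
        (∫ x, ∏ a, x a ^ e a ∂ν) := by
      intro e
      obtain ⟨B, k, hB, hk, hk2⟩ := h e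
      refine (moment_EA hi hα hB hk).congr (fun v => rfl) ?_
      rw [hk2, ← mul_assoc, sgn_sq, one_mul]
    exact (log_cont hα I hF _).mpr
      (hs_meas (mnA K) (y := fun v a => cb i α (I a) v) hy hν0 hmon hF).2
  · choose B k hB hk using h
    obtain ⟨r, hr⟩ := hs_cont (mnA K) (y := fun v a => cb i α (I a) v) hy
      (M := fun e => sgn I e * k e) (fun e => moment_EA hi hα (hB e) (hk e)) hF
    exact ⟨r, (log_cont hα I hF _).mpr hr.2⟩

end

end Pool.Agent.TH129.ST
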