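import Pool.Agent.TH129.ST.Core

/-!
# Tensor products of exterior powers
-/

set_option autoImplicit false

namespace Pool.Agent.TH129.ST

open Filter Topology Set Polynomial NumberField IsDedekindDomain ComplexConjugate
open Pool.Agent.TH129.EM
open Pool.Agent.W353.SP (Bd)
open Pool.Agent.W353.PV (Eig)
open Pool.Agent.W353.EF (IsFrobenius)

section
variable {N : ℕ} (u : Fin N → ℂ)

theorem ek_eq_esymm (k : ℕ) : ek u k = (Finset.univ.val.map u).esymm k := by
  rw [Finset.esymm_map_val]
  rfl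

theorem norm_ek_le (hu : ∀ j, ‖u j‖ = 1) (k : ℕ) : ‖ek u k‖ ≤ 2 ^ N := by
  unfold ek
  refine (norm_sum_le _ _).trans ?_
  have h1 : ∀ S ∈ Finset.powersetCard k (Finset.univ : Finset (Fin N)), ‖∏ j ∈ S, u j‖ ≤ 1 := by
    intro S _
    rw [norm_prod, Finset.prod_congr rfl fun j _ => hu j, Finset.prod_const_one]
  refine (Finset.sum_le_card_nsmul _ _ _ h1).trans ?_
  rw [nsmul_eq_mul, mul_one]
  have h2 : (Finset.powersetCard k (Finset.univ : Finset (Fin N))).card ≤ 2 ^ N := by
    rw [Finset.card_powersetCard, Finset.card_univ, Fintype.card_fin]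
    exact Nat.choose_le_two_pow N k
  exact_mod_cast h2

/-- the words -/
theorem tensorPoly_words (hu : ∀ j, ‖u j‖ = 1) {m : ℕ} (I e : Fin m → ℕ) :
    ∃ w : Fin (Fintype.piFinset (fun b : (a : Fin m) × Fin (e a) =>
      Finset.powersetCard (I b.1) (Finset.univ : Finset (Fin N)))).card → ℂ, (∀ j, ‖w j‖ = 1) ∧
      ∏ a, ek u (I a) ^ e a = ∑ j, w j ∧
      ∀ z : ℂ, (tensorPoly u I e).eval z = ∏ j, (1 - w j * z) := by
  classical
  set P := Fintype.piFinset (fun b : (a : Fin m) × Fin (e a) =>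
      Finset.powersetCard (I b.1) (Finset.univ : Finset (Fin N))) with hP
  set W : (((a : Fin m) × Fin (e a)) → Finset (Fin N)) → ℂ := fun S => ∏ b, ∏ j ∈ S b, u j with hW
  refine ⟨fun j => W (P.equivFin.symm j), fun j => ?_, ?_, fun z => ?_⟩
  · simp only [hW]
    rw [norm_prod]
    refine Finset.prod_eq_one fun b _ => ?_
    rw [norm_prod]
    exact Finset.prod_eq_one fun j _ => hu j
  · have h1 : ∑ j, W (P.equivFin.symm j) = ∑ S : P, W S :=
      Equiv.sum_comp P.equivFin.symm (fun S : P => W S)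
    rw [h1, Finset.sum_coe_sort P W]
    have h2 : ∑ S ∈ P, W S = ∏ b : (a : Fin m) × Fin (e a), ek u (I b.1) := by
      rw [hP]
      exact (Finset.prod_univ_sum (fun b : (a : Fin m) × Fin (e a) =>
        Finset.powersetCard (I b.1) (Finset.univ : Finset (Fin N)))
        (fun _ S => ∏ j ∈ S, u j)).symm
    rw [h2, Fintype.prod_sigma]
    refine Finset.prod_congr rfl fun a _ => ?_
    simp
  · have h1 : ∏ j, (1 - W (P.equivFin.symm j) * z) = ∏ S : P, (1 - W S * z) :=
      Equiv.prod_comp P.equivFin.symm (fun S : P => (1 - W S * z))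
    rw [h1, Finset.prod_coe_sort P (fun S => 1 - W S * z)]
    unfold tensorPoly
    rw [Polynomial.eval_prod]
    refine Finset.prod_congr rfl fun S _ => ?_
    simp only [Polynomial.eval_sub, Polynomial.eval_one, Polynomial.eval_mul, Polynomial.eval_C,
      Polynomial.eval_X]
    rfl

end

section
variable {K : Type} [Field K] [NumberField K] {l : ℕ} {X : Set (MvPolynomial (Fin l) (𝓞 K))}
  {d i N : ℕ} {α : HeightOneSpectrum (𝓞 K) → Fin N → ℂ}

/-- the normalised eigenvalues have absolute value one -/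
theorem unit_norm {v : HeightOneSpectrum (𝓞 K)} (h : IsFrobenius X d i v (α v)) (j : Fin N) :
    ‖unit i α v j‖ = 1 := by
  have h' : Eig X d i v (α v) := h
  have h1 := h'.norm j
  have h0 : (0 : ℝ) < (Ideal.absNorm v.asIdeal : ℝ) := nq_cast_pos v
  have h0' : 0 < Ideal.absNorm v.asIdeal := by exact_mod_cast h0
  unfold unit
  rw [norm_mul, h1, Complex.norm_natCast_cpow_of_pos h0', ← Real.rpow_add h0]
  simp

/-- the traces on the exterior powers are real -/
theorem ek_real (hi : i ≤ 2 * d) {v : HeightOneSpectrum (𝓞 K)} (h : IsFrobenius X d i v (α v))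
    (k : ℕ) : (((ek (unit i α v) k).re : ℝ) : ℂ) = ek (unit i α v) k := by
  have h' : Eig X d i v (α v) := h
  have h1 := h'.unique' hi h'.conj
  have h0 : 0 < Ideal.absNorm v.asIdeal := by
    have : (0 : ℝ) < (Ideal.absNorm v.asIdeal : ℝ) := nq_cast_pos v
    exact_mod_cast this
  have hc : conj ((Ideal.absNorm v.asIdeal : ℂ) ^ (-((i : ℂ) / 2))) =
      (Ideal.absNorm v.asIdeal : ℂ) ^ (-((i : ℂ) / 2)) := by
    have e1 : (Ideal.absNorm v.asIdeal : ℂ) ^ (-((i : ℂ) / 2)) =
        (((Ideal.absNorm v.asIdeal : ℝ) ^ (-((i : ℝ) / 2)) : ℝ) : ℂ) := by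
      rw [Complex.ofReal_cpow (Nat.cast_nonneg _)]
      push_cast
      rfl
    rw [e1, Complex.conj_ofReal]
  have h2 : Finset.univ.val.map (unit i α v) =
      Finset.univ.val.map (fun j => conj (unit i α v j)) := by
    have h3 := congrArg (Multiset.map (fun z : ℂ =>
      z * (Ideal.absNorm v.asIdeal : ℂ) ^ (-((i : ℂ) / 2)))) h1
    rw [Multiset.map_map, Multiset.map_map] at h3
    refine h3.trans ?_
    refine Multiset.map_congr rfl fun j _ => ?_
    unfold unit
    rw [Function.comp_apply, map_mul, hc]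
  have h3 : conj (ek (unit i α v) k) = ek (unit i α v) k := by
    have h4 : conj (ek (unit i α v) k) = ek (fun j => conj (unit i α v j)) k := by
      unfold ek
      rw [map_sum]
      exact Finset.sum_congr rfl fun S _ => by rw [map_prod]
    rw [h4, ek_eq_esymm, ek_eq_esymm, h2]
  exact Complex.conj_eq_iff_re.mp h3

open Classical in
/-- the coefficients, made bounded -/
noncomputable def cb (i : ℕ) {N : ℕ} (α : HeightOneSpectrum (𝓞 K) → Fin N → ℂ) (k : ℕ)
    (v : HeightOneSpectrum (𝓞 K)) : ℝ :=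
  if |coeff i α k v| ≤ 2 ^ N then coeff i α k v else 0

theorem abs_cb_le (i : ℕ) (α : HeightOneSpectrum (𝓞 K) → Fin N → ℂ) (k : ℕ)
    (v : HeightOneSpectrum (𝓞 K)) : |cb i α k v| ≤ 2 ^ N := by
  unfold cb
  split_ifs with h
  · exact h
  · rw [abs_zero]; positivity

theorem cb_eq (hα : ∀ᶠ v in cofinite, IsFrobenius X d i v (α v)) :
    ∀ᶠ v in cofinite, ∀ k, coeff i α k v = cb i α k v := by
  filter_upwards [hα] with v hv k
  unfold cb
  rw [if_pos]
  unfold coeff
  rw [abs_mul, abs_pow, abs_neg, abs_one, one_pow, one_mul]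
  exact (Complex.abs_re_le_norm _).trans (norm_ek_le _ (fun j => unit_norm hv j) k)

theorem sgn_sq {m : ℕ} (I e : Fin m → ℕ) : sgn I e * sgn I e = 1 := by
  unfold sgn
  rw [← mul_pow]
  norm_num

/-- **The tensor system.** -/
theorem unitSystem (hi : i ≤ 2 * d) (hα : ∀ᶠ v in cofinite, IsFrobenius X d i v (α v))
    {m : ℕ} {I e : Fin m → ℕ} {B : HeightOneSpectrum (𝓞 K) → ℂ[X]}
    (hB : IsTensorSystem i α I e B) : ∃ n : ℕ, IsUnitSystem n B
      fun v => sgn I e * ∏ a, cb i α (I a) v ^ e a := by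
  refine ⟨(Fintype.piFinset (fun b : (a : Fin m) × Fin (e a) =>
      Finset.powersetCard (I b.1) (Finset.univ : Finset (Fin N)))).card, ?_, hB.2⟩
  filter_upwards [hB.1, hα, cb_eq hα] with v h1 h2 h3
  obtain ⟨w, hw1, hw2, hw3⟩ := tensorPoly_words (unit i α v) (fun j => unit_norm h2 j) I e
  refine ⟨w, hw1, ?_, fun z => ?_⟩
  · rw [← hw2]
    have h4 : sgn I e * ∏ a, cb i α (I a) v ^ e a = ∏ a, (ek (unit i α v) (I a)).re ^ e a := by
      have h5 : ∀ a, cb i α (I a) v ^ e a = (-1) ^ (I a * e a) *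
          (ek (unit i α v) (I a)).re ^ e a := by
        intro a
        rw [← h3]
        unfold coeff
        rw [mul_pow, pow_mul]
      rw [Finset.prod_congr rfl fun a _ => h5 a, Finset.prod_mul_distrib, ← mul_assoc,
        Finset.prod_pow_eq_pow_sum]
      have h6 := sgn_sq I e
      unfold sgn at h6 ⊢
      rw [h6, one_mul]
    rw [h4]
    push_cast
    exact Finset.prod_congr rfl fun a _ => by rw [ek_real hi h2]
  · rw [h1, hw3]

end

end Pool.Agent.TH129.ST
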