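import Pool.Agent.W353.EF.Defs
import Mathlib.MeasureTheory.Integral.Bochner.Basic

/-!
# The distribution of normalised characteristic polynomials of Frobenius: definitions

`X` is a smooth projective variety of dimension `d` over a number field `K`; `N` is the `i`-th Betti
number.
-/

set_option autoImplicit false

namespace Pool.Agent.TH129.ST

open NumberField IsDedekindDomain Filter Topology Polynomial

section
variable {K : Type} [Field K] [NumberField K]

/-- the Euler product `∏_v B_v(q_v^{-s})⁻¹` -/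
noncomputable def eulerProduct (B : HeightOneSpectrum (𝓞 K) → ℂ[X]) (s : ℂ) : ℂ :=
  ∏' v, ((B v).eval ((Ideal.absNorm v.asIdeal : ℂ) ^ (-s)))⁻¹

/-- The Euler product has a meromorphic continuation to a neighbourhood of the point `1`, with a pole of
order `k` there, that is, a zero of order `-k` if `k < 0`. -/
def HasPoleOrder (B : HeightOneSpectrum (𝓞 K) → ℂ[X]) (k : ℤ) : Prop :=
  ∃ Λ : ℂ → ℂ, MeromorphicAt Λ 1 ∧ (∀ᶠ s in 𝓝 (1 : ℂ), 1 < s.re → Λ s = eulerProduct B s) ∧
    meromorphicOrderAt Λ 1 = ((-k : ℤ) : WithTop ℤ)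

/-- `(1 / log x) ∑_{q_v ≤ x} f(v) log q_v / q_v`, the mean value of `f` in the sense of the logarithmic
density -/
noncomputable def logMean (f : HeightOneSpectrum (𝓞 K) → ℝ) (x : ℝ) : ℝ :=
  (∑ᶠ v ∈ {v : HeightOneSpectrum (𝓞 K) | (Ideal.absNorm v.asIdeal : ℝ) ≤ x},
    f v * Real.log (Ideal.absNorm v.asIdeal : ℝ) / (Ideal.absNorm v.asIdeal : ℝ)) / Real.log x

/-- the mean value of `f` over the primes with `q_v ≤ x` -/
noncomputable def mean (f : HeightOneSpectrum (𝓞 K) → ℝ) (x : ℝ) : ℝ :=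
  (∑ᶠ v ∈ {v : HeightOneSpectrum (𝓞 K) | (Ideal.absNorm v.asIdeal : ℝ) ≤ x}, f v) /
    (Nat.card {v : HeightOneSpectrum (𝓞 K) // (Ideal.absNorm v.asIdeal : ℝ) ≤ x} : ℝ)

/-- the normalised eigenvalues `α_j / q_v ^ (i/2)` of Frobenius on `H^i` -/
noncomputable def unit (i : ℕ) {N : ℕ} (α : HeightOneSpectrum (𝓞 K) → Fin N → ℂ)
    (v : HeightOneSpectrum (𝓞 K)) (j : Fin N) : ℂ :=
  α v j * (Ideal.absNorm v.asIdeal : ℂ) ^ (-((i : ℂ) / 2))

end

/-- the elementary symmetric polynomial of degree `k` at `u`, the trace on the `k`-th exterior power -/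
noncomputable def ek {N : ℕ} (u : Fin N → ℂ) (k : ℕ) : ℂ :=
  ∑ S ∈ Finset.powersetCard k (Finset.univ : Finset (Fin N)), ∏ j ∈ S, u j

/-- The polynomial `det(1 - T u | ⊗_a (Λ^{I_a})^{⊗ e_a})`, for the diagonal matrix `u`: the product of
`1 - w T` over the products `w` of `e_0` products of `I_0` different entries of `u`, ..., and `e_{m-1}`
products of `I_{m-1}` different entries. -/
noncomputable def tensorPoly {N : ℕ} (u : Fin N → ℂ) {m : ℕ} (I e : Fin m → ℕ) : ℂ[X] :=
  ∏ S ∈ Fintype.piFinset (fun b : (a : Fin m) × Fin (e a) =>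
    Finset.powersetCard (I b.1) (Finset.univ : Finset (Fin N))),
    (1 - C (∏ b, ∏ j ∈ S b, u j) * X)

section
variable {K : Type} [Field K] [NumberField K]

/-- `B v` is the Euler factor of the `L`-function of `⊗_a (Λ^{I_a} V)^{⊗ e_a}`, where `V` is `H^i(X)(i/2)`
with the normalised eigenvalues `unit i α v` of Frobenius, at almost all primes `v`; at the others it
is any polynomial different from zero at `q_v⁻¹`. -/
def IsTensorSystem (i : ℕ) {N : ℕ} (α : HeightOneSpectrum (𝓞 K) → Fin N → ℂ) {m : ℕ}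
    (I e : Fin m → ℕ) (B : HeightOneSpectrum (𝓞 K) → ℂ[X]) : Prop :=
  (∀ᶠ v in cofinite, B v = tensorPoly (unit i α v) I e) ∧
    ∀ v, (B v).eval ((Ideal.absNorm v.asIdeal : ℂ) ^ (-(1 : ℂ))) ≠ 0

/-- The coefficient `a_k` of `T^k` in the normalised polynomial `∏ (1 - u_j T)`, which is
`(-1)^k ek u k`; it is real at almost all primes. -/
noncomputable def coeff (i : ℕ) {N : ℕ} (α : HeightOneSpectrum (𝓞 K) → Fin N → ℂ) (k : ℕ)
    (v : HeightOneSpectrum (𝓞 K)) : ℝ :=
  (-1) ^ k * (ek (unit i α v) k).re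

/-- `X` is a curve of genus `g` and `α_1, …, α_{2g}` are the inverse roots of the numerator `L_v(T)` of the
zeta function of its reduction at `v`: they have absolute value `q_v^{1/2}` and the number of the points
of `X` over the extension of degree `e` of the residue field is `q_v^e + 1 - ∑ α_j^e`, for all `e`
(`cone` is the number of the nonzero solutions of the equations, `q_v^e - 1` times the number of the
points). -/
def IsCurveFrobenius {l : ℕ} (X : Set (MvPolynomial (Fin l) (𝓞 K))) {g : ℕ}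
    (v : HeightOneSpectrum (𝓞 K)) (α : Fin (2 * g) → ℂ) : Prop :=
  (∀ j, ‖α j‖ = (Ideal.absNorm v.asIdeal : ℝ) ^ ((1 : ℝ) / 2)) ∧
    ∀ (κ : Type) [Field κ] [Finite κ] (φ : 𝓞 K →+* κ) (e : ℕ), RingHom.ker φ = v.asIdeal →
      Nat.card κ = Ideal.absNorm v.asIdeal ^ e →
      (Pool.Agent.W353.EF.cone X φ : ℂ) = ((Ideal.absNorm v.asIdeal : ℂ) ^ e - 1) *
        ((Ideal.absNorm v.asIdeal : ℂ) ^ e + 1 - ∑ j, α j ^ e)

/-- `X` is an abelian variety of dimension `g` and `α_1, …, α_{2g}` are the inverse roots of the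
`L`-polynomial of its reduction at `v`: they have absolute value `q_v^{1/2}` and the number of the
points of `X` over the extension of degree `e` of the residue field is `∏ (1 - α_j^e)`, for all `e`. -/
def IsAbelianFrobenius {l : ℕ} (X : Set (MvPolynomial (Fin l) (𝓞 K))) {g : ℕ}
    (v : HeightOneSpectrum (𝓞 K)) (α : Fin (2 * g) → ℂ) : Prop :=
  (∀ j, ‖α j‖ = (Ideal.absNorm v.asIdeal : ℝ) ^ ((1 : ℝ) / 2)) ∧
    ∀ (κ : Type) [Field κ] [Finite κ] (φ : 𝓞 K →+* κ) (e : ℕ), RingHom.ker φ = v.asIdeal →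
      Nat.card κ = Ideal.absNorm v.asIdeal ^ e →
      (Pool.Agent.W353.EF.cone X φ : ℂ) = ((Ideal.absNorm v.asIdeal : ℂ) ^ e - 1) *
        ∏ j, (1 - α j ^ e)

/-- the monomial `∏_a (a_{I_a})^{e_a}` in the coefficients -/
noncomputable def moment (i : ℕ) {N : ℕ} (α : HeightOneSpectrum (𝓞 K) → Fin N → ℂ) {m : ℕ}
    (I e : Fin m → ℕ) (v : HeightOneSpectrum (𝓞 K)) : ℝ := ∏ a, coeff i α (I a) v ^ e a

/-- the sign of the monomial: `∏_a (a_{I_a})^{e_a}` is the sign times the trace on the tensor product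
`⊗_a (Λ^{I_a})^{⊗ e_a}` -/
noncomputable def sgn {m : ℕ} (I e : Fin m → ℕ) : ℝ := (-1) ^ (∑ a, I a * e a)

/-- The moments and the point `1`: if the `L`-function of `⊗_a (Λ^{I_a} V)^{⊗ e_a}` has a meromorphic
continuation to a neighbourhood of the point `1`, with a pole of order `k`, then the mean value of
`∏_a (a_{I_a})^{e_a}` in the sense of the logarithmic density is `± k`, and if its mean value over the
primes with `q_v ≤ x` has a limit for `x → ∞`, it is `± k`. -/
def MomentLaw (i : ℕ) {N : ℕ} (α : HeightOneSpectrum (𝓞 K) → Fin N → ℂ) : Prop :=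
  ∀ (m : ℕ) (I e : Fin m → ℕ) (B : HeightOneSpectrum (𝓞 K) → ℂ[X]) (k : ℤ),
    IsTensorSystem i α I e B → HasPoleOrder B k →
    Tendsto (logMean (moment i α I e)) atTop (𝓝 (sgn I e * k)) ∧
    ∀ r : ℝ, Tendsto (mean (moment i α I e)) atTop (𝓝 r) → r = sgn I e * k

end

section
variable {K : Type} [Field K] [NumberField K]

/-- For all continuous functions `F` the mean value of `F(a_{I_0}, ..., a_{I_{m-1}})` over the primes
with `q_v ≤ x` tends to the integral of `F`: the coefficients are equidistributed for `ν`. -/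
def Equidistributed (i : ℕ) {N : ℕ} (α : HeightOneSpectrum (𝓞 K) → Fin N → ℂ) {m : ℕ}
    (I : Fin m → ℕ) (ν : MeasureTheory.Measure (Fin m → ℝ)) : Prop :=
  ∀ F : (Fin m → ℝ) → ℝ, Continuous F →
    Tendsto (mean fun v => F fun a => coeff i α (I a) v) atTop (𝓝 (∫ x, F x ∂ν))

/-- The coefficients are equidistributed for `ν` in the sense of the logarithmic density. -/
def LogEquidistributed (i : ℕ) {N : ℕ} (α : HeightOneSpectrum (𝓞 K) → Fin N → ℂ) {m : ℕ}
    (I : Fin m → ℕ) (ν : MeasureTheory.Measure (Fin m → ℝ)) : Prop :=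
  ∀ F : (Fin m → ℝ) → ℝ, Continuous F →
    Tendsto (logMean fun v => F fun a => coeff i α (I a) v) atTop (𝓝 (∫ x, F x ∂ν))

/-- The joint distribution of the coefficients `a_{I_0}, ..., a_{I_{m-1}}` and the point `1`; `ν` is a
probability measure on the cube `[-2^N, 2^N]^m`, which contains all values.
* Equidistribution gives equidistribution in the sense of the logarithmic density.
* The latter gives the order `± ∫ ∏_a x_a^{e_a} dν` of the pole at `1` of the `L`-function of
  `⊗_a (Λ^{I_a} V)^{⊗ e_a}`, for all `e` for which it has a meromorphic continuation to a neighbourhood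
  of the point `1`.
* If all of them have such a continuation with these orders, the coefficients are equidistributed for
  `ν` in the sense of the logarithmic density.
* If all of them have such a continuation, then the mean value of `F(a_{I_0}, ..., a_{I_{m-1}})` in the
  sense of the logarithmic density exists for every continuous function `F`. -/
def DistributionLaw (i : ℕ) {N : ℕ} (α : HeightOneSpectrum (𝓞 K) → Fin N → ℂ) {m : ℕ}
    (I : Fin m → ℕ) : Prop :=
  (∀ ν : MeasureTheory.Measure (Fin m → ℝ), MeasureTheory.IsProbabilityMeasure ν →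
    (∀ᵐ x ∂ν, ∀ a, |x a| ≤ 2 ^ N) →
    (Equidistributed i α I ν → LogEquidistributed i α I ν) ∧
    (LogEquidistributed i α I ν → ∀ (e : Fin m → ℕ) (B : HeightOneSpectrum (𝓞 K) → ℂ[X]) (k : ℤ),
      IsTensorSystem i α I e B → HasPoleOrder B k → (k : ℝ) = sgn I e * ∫ x, ∏ a, x a ^ e a ∂ν) ∧
    ((∀ e : Fin m → ℕ, ∃ (B : HeightOneSpectrum (𝓞 K) → ℂ[X]) (k : ℤ), IsTensorSystem i α I e B ∧
        HasPoleOrder B k ∧ (k : ℝ) = sgn I e * ∫ x, ∏ a, x a ^ e a ∂ν) →
      LogEquidistributed i α I ν)) ∧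
  ((∀ e : Fin m → ℕ, ∃ (B : HeightOneSpectrum (𝓞 K) → ℂ[X]) (k : ℤ), IsTensorSystem i α I e B ∧
      HasPoleOrder B k) →
    ∀ F : (Fin m → ℝ) → ℝ, Continuous F →
      ∃ r : ℝ, Tendsto (logMean fun v => F fun a => coeff i α (I a) v) atTop (𝓝 r))

end

end Pool.Agent.TH129.ST
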