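import Pool.Agent.TH129.EM.Div4
import Pool.Agent.TH129.ST.Defs

/-!
# Euler products over unit complex numbers at the point `1`
-/

set_option autoImplicit false

namespace Pool.Agent.TH129.ST

open Filter Topology Set Polynomial NumberField IsDedekindDomain
open Pool.Agent.TH129.EM
open Pool.Agent.W353.SP (Bd Mn Hs EN mnN)
open Pool.Agent.W353.FB (EA mnA)

section
variable {K : Type} [Field K] [NumberField K]

/-- `B v` is the polynomial `∏ (1 - w_j z)` with `‖w_j‖ = 1` and `∑ w_j = t v` for almost all `v` -/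
def IsUnitSystem (N : ℕ) (B : HeightOneSpectrum (𝓞 K) → ℂ[X])
    (t : HeightOneSpectrum (𝓞 K) → ℝ) : Prop :=
  (∀ᶠ v in cofinite, ∃ w : Fin N → ℂ, (∀ j, ‖w j‖ = 1) ∧ (t v : ℂ) = ∑ j, w j ∧
    ∀ z : ℂ, (B v).eval z = ∏ j, (1 - w j * z)) ∧
  ∀ v, (B v).eval ((Ideal.absNorm v.asIdeal : ℂ) ^ (-(1 : ℂ))) ≠ 0

theorem unit_edge {N : ℕ} {B : HeightOneSpectrum (𝓞 K) → ℂ[X]}
    {t : HeightOneSpectrum (𝓞 K) → ℝ} {C : ℝ} (htb : ∀ v, |t v| ≤ C) (hC : 0 ≤ C)
    (h : IsUnitSystem N B t) :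
    Edge (HeightOneSpectrum (𝓞 K)) nq
      (fun v ε => ‖(B v).eval ((Ideal.absNorm v.asIdeal : ℂ) ^ (-((1 : ℂ) + ε)))‖⁻¹)
      (fun ε => ‖eulerProduct B ((1 : ℂ) + ε)‖) (fun v => t v / nq v) := by
  classical
  set G : HeightOneSpectrum (𝓞 K) → Prop := fun v => ∃ w : Fin N → ℂ, (∀ j, ‖w j‖ = 1) ∧
    (t v : ℂ) = ∑ j, w j ∧ ∀ z : ℂ, (B v).eval z = ∏ j, (1 - w j * z) with hG
  have hgood : ∀ᶠ v in cofinite, G v := h.1
  have hbad : {v | ¬ G v}.Finite := Filter.eventually_cofinite.mp hgood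
  set E : HeightOneSpectrum (𝓞 K) → ℝ → ℝ := fun v ε =>
    ‖(B v).eval ((Ideal.absNorm v.asIdeal : ℂ) ^ (-((1 : ℂ) + ε)))‖⁻¹ with hE
  set c : HeightOneSpectrum (𝓞 K) → ℝ := fun v => t v / nq v with hc
  have hq2 : ∀ v : HeightOneSpectrum (𝓞 K), 2 ≤ nq v := fun v => nq_places.two_le v
  have hloc : ∀ v, G v → ∀ ε : ℝ, 0 ≤ ε → ∃ w : Fin N → ℂ,
      (∀ z : ℂ, (B v).eval z = ∏ j, (1 - w j * z)) ∧
      (∀ j, ‖w j * (nq v : ℂ) ^ (-((1 : ℂ) + ε))‖ =
        (nq v : ℝ) ^ (-(1 + ε))) ∧ 0 < E v ε ∧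
      |Real.log (E v ε) - c v * (nq v : ℝ) ^ (-ε)| ≤ N * (nq v : ℝ) ^ (-2 : ℝ) := by
    intro v hv ε hε
    obtain ⟨w, hw1, hw2, hw3⟩ := hv
    have h1 := loc_complex (q := nq v) (hq2 v) (α := w) (w := 0)
      (fun j => by rw [hw1 j, Real.rpow_zero]) (t := t v)
      (by rw [hw2, Complex.ofReal_zero, neg_zero, Complex.cpow_zero, mul_one]) hε
    rw [Complex.ofReal_zero, zero_add] at h1
    obtain ⟨h2, h3, h4⟩ := h1
    have h5 : E v ε = ‖∏ j, (1 - w j * (nq v : ℂ) ^ (-((1 : ℂ) + ε)))‖⁻¹ := by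
      simp only [hE]
      rw [hw3]
      rfl
    refine ⟨w, hw3, h2, ?_, ?_⟩
    · rw [h5]
      exact inv_pos.mpr (norm_pos_iff.mpr h3)
    · rw [h5]
      exact h4
  have hne0 : ∀ v, (B v).eval ((Ideal.absNorm v.asIdeal : ℂ) ^ (-((1 : ℂ) + (0 : ℝ)))) ≠ 0 := by
    intro v
    have := h.2 v
    rw [Complex.ofReal_zero, add_zero]
    exact this
  have hpos : ∀ v, 0 < E v 0 := fun v => inv_pos.mpr (norm_pos_iff.mpr (hne0 v))
  have hcont : ∀ v, Tendsto (E v) (𝓝[>] 0) (𝓝 (E v 0)) := by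
    intro v
    have hqC : (Ideal.absNorm v.asIdeal : ℂ) ≠ 0 := by
      have h1 := hq2 v
      have h2 : Ideal.absNorm v.asIdeal ≠ 0 := by
        have : nq v ≠ 0 := by omega
        exact this
      exact_mod_cast h2
    have h1 : ContinuousAt (E v) 0 := by
      simp only [hE]
      refine ContinuousAt.inv₀ ?_ (norm_ne_zero_iff.mpr (hne0 v))
      refine ContinuousAt.norm ?_
      refine (B v).continuous.continuousAt.comp ?_
      refine ContinuousAt.const_cpow ?_ (Or.inl hqC)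
      fun_prop
    exact tendsto_nhdsWithin_of_tendsto_nhds h1
  have hsum2 : Summable fun v : HeightOneSpectrum (𝓞 K) => (nq v : ℝ) ^ (-2 : ℝ) :=
    (nq_places (K := K)).summable (fun n => nq_fiber n) (by norm_num)
  set D : HeightOneSpectrum (𝓞 K) → ℝ := fun v => N * (nq v : ℝ) ^ (-2 : ℝ) +
    (if v ∈ hbad.toFinset then |Real.log (E v 0)| + 1 + |c v| else 0) with hD
  have hDs : Summable D := by
    refine (hsum2.mul_left (N : ℝ)).add ?_
    exact summable_of_ne_finset_zero (s := hbad.toFinset) fun i hi => if_neg hi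
  have hN2 : ∀ v : HeightOneSpectrum (𝓞 K), 0 ≤ (N : ℝ) * (nq v : ℝ) ^ (-2 : ℝ) := fun v => by
    positivity
  have hbadev : ∀ᶠ ε : ℝ in 𝓝[>] 0, ∀ v ∈ hbad.toFinset, 0 < E v ε ∧
      |Real.log (E v ε) - c v * (nq v : ℝ) ^ (-ε)| ≤ D v := by
    rw [Filter.eventually_all_finset]
    intro v hv
    have h1 := ((hcont v).log (hpos v).ne').abs.eventually (gt_mem_nhds (lt_add_one _))
    filter_upwards [(hcont v).eventually (lt_mem_nhds (hpos v)), h1, self_mem_nhdsWithin]
      with ε h2 h3 hε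
    have hε0 : (0 : ℝ) < ε := hε
    refine ⟨h2, ?_⟩
    have h4 : |c v * (nq v : ℝ) ^ (-ε)| ≤ |c v| := by
      have h5 : (nq v : ℝ) ^ (-ε) ≤ 1 :=
        Real.rpow_le_one_of_one_le_of_nonpos (by exact_mod_cast (by have := hq2 v; omega : 1 ≤ nq v))
          (by linarith)
      rw [abs_mul, abs_of_nonneg (Real.rpow_nonneg (Nat.cast_nonneg _) _)]
      exact mul_le_of_le_one_right (abs_nonneg _) h5
    have h6 := abs_sub (Real.log (E v ε)) (c v * (nq v : ℝ) ^ (-ε))
    simp only [hD]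
    rw [if_pos hv]
    have h7 := hN2 v
    linarith
  refine ⟨nq_places, ?_, ⟨D, hDs, ?_⟩, hpos, hcont, ?_⟩
  · refine ⟨_, (nq_places (K := K)).fiber_bound (M := C) hC nq_pp nq_fiber
      fun v => ?_⟩
    simp only [hc]
    rw [abs_div, abs_of_pos (nq_cast_pos v)]
    exact div_le_div_of_nonneg_right (htb v) (nq_cast_pos v).le
  · filter_upwards [hbadev, self_mem_nhdsWithin] with ε h1 hε v
    have hε0 : (0 : ℝ) < ε := hε
    by_cases hv : v ∈ hbad.toFinset
    · exact h1 v hv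
    · have hv' : G v := by simpa using hv
      obtain ⟨-, -, -, h2, h3⟩ := hloc v hv' ε hε0.le
      refine ⟨h2, h3.trans ?_⟩
      simp only [hD]
      rw [if_neg hv, add_zero]
  · filter_upwards [self_mem_nhdsWithin] with ε hε
    have hε0 : (0 : ℝ) < ε := hε
    set f : HeightOneSpectrum (𝓞 K) → ℂ := fun v =>
      ((B v).eval ((Ideal.absNorm v.asIdeal : ℂ) ^ (-((1 : ℂ) + ε))))⁻¹ with hf
    have h1 : Summable fun v => ‖f v - 1‖ := by
      have h2 : Summable fun v : HeightOneSpectrum (𝓞 K) =>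
          2 * N * Real.exp (2 * N) * (nq v : ℝ) ^ (-(1 + ε)) :=
        ((nq_places (K := K)).summable (fun n => nq_fiber n)
          (show 1 < 1 + ε by linarith)).mul_left _
      refine Summable.of_norm_bounded_eventually h2 ?_
      filter_upwards [hgood] with v hv
      rw [norm_norm]
      obtain ⟨w, hw3, h3, -, -⟩ := hloc v hv ε hε0.le
      have h4 : (nq v : ℝ) ^ (-(1 + ε)) ≤ 1 / 2 := by
        have hq : (2 : ℝ) ≤ nq v := by exact_mod_cast hq2 v
        have h5 : (nq v : ℝ) ^ (-(1 + ε)) ≤ (nq v : ℝ) ^ (-1 : ℝ) :=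
          Real.rpow_le_rpow_of_exponent_le (by linarith) (by linarith)
        refine h5.trans ?_
        rw [Real.rpow_neg_one, one_div]
        exact inv_anti₀ (by norm_num) hq
      have h5 := inv_prod_sub_one h4 h3
      have h6 : f v = (∏ j, (1 - w j * (nq v : ℂ) ^ (-((1 : ℂ) + ε))))⁻¹ := by
        simp only [hf]
        rw [hw3]
        rfl
      rw [h6]
      exact h5
    have h2 : Multipliable f := by
      have h3 := multipliable_one_add_of_summable h1
      refine h3.congr fun v => ?_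
      ring
    have h3 := h2.hasProd.norm
    have h4 : (fun v => ‖f v‖) = fun v => E v ε := by
      funext v
      simp only [hf, hE]
      rw [norm_inv]
    rw [h4] at h3
    exact h3

theorem logMean_eq (f : HeightOneSpectrum (𝓞 K) → ℝ) : logMean f = logAvg 0 f := by
  funext x
  unfold logMean logAvg
  simp only [zero_add, pow_one]

/-- logarithmic and analytic mean values -/
theorem logMean_iff {f a : HeightOneSpectrum (𝓞 K) → ℝ} (ha : Bd a)
    (h : ∀ᶠ v in cofinite, f v = a v) (r : ℝ) :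
    Tendsto (logMean f) atTop (𝓝 r) ↔ Tendsto (fun s => EA K s a) (𝓝[>] 1) (𝓝 r) := by
  rw [logMean_eq]
  refine logAvg_iff ha ?_ r
  filter_upwards [h] with v hv
  rw [pow_zero, div_one, hv]

/-- **The order of the pole at `1` as an analytic mean value.** -/
theorem poleOrder_EA {N : ℕ} {B : HeightOneSpectrum (𝓞 K) → ℂ[X]}
    {t : HeightOneSpectrum (𝓞 K) → ℝ} (ht : Bd t)
    (h : IsUnitSystem N B t) {k : ℤ} (hk : HasPoleOrder B k) :
    Tendsto (fun s : ℝ => EA K s t) (𝓝[>] 1) (𝓝 (k : ℝ)) := by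
  obtain ⟨C0, hC0⟩ := ht
  have hC : ∀ v, |t v| ≤ |C0| := fun v => (hC0 v).trans (le_abs_self C0)
  have hedge := unit_edge hC (abs_nonneg C0) h
  obtain ⟨Λ, hΛ, he, hord⟩ := hk
  obtain ⟨g, hg1, hg2, hg3⟩ := (meromorphicOrderAt_eq_int_iff hΛ).mp hord
  have hpath : Tendsto (fun ε : ℝ => (1 : ℂ) + ε) (𝓝[>] 0) (𝓝[≠] 1) := by
    rw [tendsto_nhdsWithin_iff]
    constructor
    · have h1 : Continuous fun ε : ℝ => (1 : ℂ) + ε := by fun_prop
      have h2 := h1.tendsto 0
      simp only [Complex.ofReal_zero, add_zero] at h2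
      exact tendsto_nhdsWithin_of_tendsto_nhds h2
    · filter_upwards [self_mem_nhdsWithin] with ε hε
      have hε0 : (0 : ℝ) < ε := hε
      rw [Set.mem_compl_iff, Set.mem_singleton_iff]
      intro h
      have : (ε : ℂ) = 0 := by simpa using h
      exact hε0.ne' (by exact_mod_cast this)
  have hlim : Tendsto (fun ε : ℝ => Real.log ‖eulerProduct B ((1 : ℂ) + ε)‖ + (k : ℝ) * Real.log ε)
      (𝓝[>] 0) (𝓝 (Real.log ‖g 1‖)) := by
    have h1 : Tendsto (fun ε : ℝ => Real.log ‖g ((1 : ℂ) + ε)‖) (𝓝[>] 0) (𝓝 (Real.log ‖g 1‖)) :=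
      ((hg1.continuousAt.tendsto.comp (tendsto_nhds_of_tendsto_nhdsWithin hpath)).norm).log
        (norm_ne_zero_iff.mpr hg2)
    refine h1.congr' ?_
    have hgne : ∀ᶠ ε : ℝ in 𝓝[>] 0, g ((1 : ℂ) + ε) ≠ 0 :=
      (hg1.continuousAt.tendsto.comp (tendsto_nhds_of_tendsto_nhdsWithin hpath)).eventually_ne hg2
    filter_upwards [hpath.eventually hg3, (tendsto_nhds_of_tendsto_nhdsWithin hpath).eventually he,
      self_mem_nhdsWithin, hgne] with ε h2 h3 hε h4
    have hε0 : (0 : ℝ) < ε := hε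
    have h5 : Λ ((1 : ℂ) + ε) = eulerProduct B ((1 : ℂ) + ε) := by
      refine h3 ?_
      rw [Complex.add_re, Complex.ofReal_re, Complex.one_re]
      linarith
    rw [← h5, h2, add_sub_cancel_left, norm_smul, norm_zpow, Complex.norm_real,
      Real.norm_of_nonneg hε0.le, Real.log_mul (zpow_ne_zero _ hε0.ne') (norm_ne_zero_iff.mpr h4),
      Real.log_zpow]
    push_cast
    ring
  have h1 := (hedge.log_avg hlim).comp Real.tendsto_log_atTop
  rw [← logMean_iff ⟨C0, hC0⟩ (Eventually.of_forall fun _ => rfl)]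
  refine h1.congr' ?_
  filter_upwards [eventually_gt_atTop 0] with x hx
  have e : logMean t x = sumUpTo (fun v => t v * Real.log (Ideal.absNorm v.asIdeal : ℝ) /
      (Ideal.absNorm v.asIdeal : ℝ)) x / Real.log x := rfl
  rw [e, Function.comp_apply, sumUpTo_eq _ hx]
  congr 1
  refine Finset.sum_congr rfl fun v _ => ?_
  have h2 : (Ideal.absNorm v.asIdeal : ℝ) = (nq v : ℝ) := rfl
  rw [h2]
  ring

/-- mean values and the averages `EN` -/
theorem mean_EN {f a : HeightOneSpectrum (𝓞 K) → ℝ} (ha : Bd a)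
    (h : ∀ᶠ v in cofinite, f v = a v) {r : ℝ}
    (hf : Tendsto (mean f) atTop (𝓝 r)) : Tendsto (fun n : ℕ => EN K n a) atTop (𝓝 r) := by
  classical
  have hcard : Tendsto (fun n : ℕ => ((Pool.Agent.H126U.VX K n).card : ℝ) /
      Pool.Agent.W385.TT.pc n) atTop (𝓝 1) := Pool.Agent.H126U.card_VX
  have hset : ∀ n : ℕ, {v : HeightOneSpectrum (𝓞 K) | (Ideal.absNorm v.asIdeal : ℝ) ≤ (n : ℝ)} =
      ((Pool.Agent.H126U.VX K n : Finset _) : Set (HeightOneSpectrum (𝓞 K))) := by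
    intro n
    ext v
    rw [Finset.mem_coe, Pool.Agent.H126U.mem_VX]
    constructor
    · intro h1
      exact_mod_cast h1
    · intro h1
      exact_mod_cast h1
  have hmean : ∀ n : ℕ, mean f n = (∑ v ∈ Pool.Agent.H126U.VX K n, f v) /
      ((Pool.Agent.H126U.VX K n).card : ℝ) := by
    intro n
    unfold mean
    rw [hset n, finsum_mem_coe_finset]
    congr 2
    have h1 : Nat.card {v : HeightOneSpectrum (𝓞 K) // (Ideal.absNorm v.asIdeal : ℝ) ≤ (n : ℝ)} =
        Nat.card ((Pool.Agent.H126U.VX K n : Finset _) : Set (HeightOneSpectrum (𝓞 K))) := by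
      rw [← hset n]
      rfl
    rw [h1, Nat.card_coe_set_eq, Set.ncard_coe_finset]
  have h1 : Tendsto (fun n : ℕ => mean f n * (((Pool.Agent.H126U.VX K n).card : ℝ) /
      Pool.Agent.W385.TT.pc n)) atTop (𝓝 (r * 1)) :=
    (hf.comp tendsto_natCast_atTop_atTop).mul hcard
  rw [mul_one] at h1
  -- the finitely many primes where `f` and `a` differ
  have hfin := Filter.eventually_cofinite.mp h
  set D : ℝ := ∑ v ∈ hfin.toFinset, |f v - a v| with hD
  have hpc : Tendsto (fun n : ℕ => Pool.Agent.W385.TT.pc n) atTop atTop :=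
    Pool.Agent.W353.SP.pc_top
  have h2 : Tendsto (fun n : ℕ => D / Pool.Agent.W385.TT.pc n) atTop (𝓝 0) :=
    tendsto_const_nhds.div_atTop hpc
  have h3 : Tendsto (fun n : ℕ => EN K n a - mean f n * (((Pool.Agent.H126U.VX K n).card : ℝ) /
      Pool.Agent.W385.TT.pc n)) atTop (𝓝 0) := by
    refine squeeze_zero_norm' ?_ h2
    filter_upwards [hcard.eventually_const_lt (show (0 : ℝ) < 1 by norm_num)] with n hn
    have hpc0 : 0 ≤ Pool.Agent.W385.TT.pc n := Pool.Agent.W385.TT.pc_nonneg n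
    have hc0 : ((Pool.Agent.H126U.VX K n).card : ℝ) ≠ 0 := by
      intro h0
      rw [h0, zero_div] at hn
      exact lt_irrefl _ hn
    rw [Pool.Agent.W353.SP.EN_eq, hmean, div_mul_div_cancel₀ hc0, ← sub_div,
      ← Finset.sum_sub_distrib, Real.norm_eq_abs, abs_div, abs_of_nonneg hpc0]
    refine div_le_div_of_nonneg_right ?_ hpc0
    refine (Finset.abs_sum_le_sum_abs _ _).trans ?_
    calc ∑ v ∈ Pool.Agent.H126U.VX K n, |a v - f v|
        = ∑ v ∈ Pool.Agent.H126U.VX K n with v ∈ hfin.toFinset, |a v - f v| := by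
          rw [Finset.sum_filter]
          refine Finset.sum_congr rfl fun v _ => ?_
          split_ifs with hv
          · rfl
          · rw [Set.Finite.mem_toFinset, Set.mem_ofPred_eq, not_not] at hv
            rw [hv, sub_self, abs_zero]
      _ ≤ ∑ v ∈ hfin.toFinset, |a v - f v| := by
          refine Finset.sum_le_sum_of_subset_of_nonneg (fun v hv => (Finset.mem_filter.mp hv).2)
            fun _ _ _ => abs_nonneg _
      _ = D := by
          rw [hD]
          exact Finset.sum_congr rfl fun v _ => abs_sub_comm _ _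
  have h4 := h3.add h1
  rw [zero_add] at h4
  refine h4.congr fun n => ?_
  ring

end

end Pool.Agent.TH129.ST
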