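import Pool.Agent.TH129.ST.Defs
import Mathlib.LinearAlgebra.UnitaryGroup
import Mathlib.MeasureTheory.Group.Measure

/-!
# Conjugacy classes in a compact group attached to the primes: definitions

`G` is a compact group and `x v` is an element of `G` for every prime `v` of the number field `K`;
only the conjugacy class of `x v` matters.
-/

set_option autoImplicit false

namespace Pool.Agent.TH129.ST

open NumberField IsDedekindDomain Filter Topology Polynomial MeasureTheory

section
variable {G : Type} [Group G] [TopologicalSpace G]

/-- a function on the set of the conjugacy classes -/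
def IsClassFunction (f : G → ℝ) : Prop := ∀ g h, f (h * g * h⁻¹) = f g

/-- `π` is a nontrivial continuous unitary representation, and irreducible: only the scalars commute
with all `π g`. -/
def IsNontrivialIrrep {n : ℕ} (π : G →* Matrix.unitaryGroup (Fin n) ℂ) : Prop :=
  Continuous π ∧ (∃ g, π g ≠ 1) ∧ ∀ A : Matrix (Fin n) (Fin n) ℂ,
    (∀ g, (π g : Matrix (Fin n) (Fin n) ℂ) * A = A * π g) →
      ∃ c : ℂ, A = c • (1 : Matrix (Fin n) (Fin n) ℂ)

/-- the character -/
noncomputable def character {n : ℕ} (π : G →* Matrix.unitaryGroup (Fin n) ℂ) (g : G) : ℂ :=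
  (π g : Matrix (Fin n) (Fin n) ℂ).trace

variable {K : Type} [Field K] [NumberField K]

/-- The `L`-function `L(π, s) = ∏_v det(1 - q_v^{-s} π(x_v))⁻¹`, with any factors `B_v(q_v^{-s})⁻¹`,
`B_v(q_v⁻¹) ≠ 0`, at finitely many primes, has a meromorphic continuation to a neighbourhood of the
point `1`, with a pole of order `k` there (a zero of order `-k` if `k < 0`). -/
def RepPoleOrder (x : HeightOneSpectrum (𝓞 K) → G) {n : ℕ}
    (π : G →* Matrix.unitaryGroup (Fin n) ℂ) (k : ℤ) : Prop :=
  ∃ B : HeightOneSpectrum (𝓞 K) → ℂ[X],
    (∀ᶠ v in cofinite, ∀ z : ℂ,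
      (B v).eval z = (1 - z • (π (x v) : Matrix (Fin n) (Fin n) ℂ)).det) ∧
    (∀ v, (B v).eval ((Ideal.absNorm v.asIdeal : ℂ) ^ (-(1 : ℂ))) ≠ 0) ∧ HasPoleOrder B k

variable [MeasurableSpace G]

/-- For all continuous functions `f` of the conjugacy class the mean value of `f(x_v)` over the primes
with `q_v ≤ T` tends to the integral of `f`. -/
def ClassEquidistributed (x : HeightOneSpectrum (𝓞 K) → G) (ν : Measure G) : Prop :=
  ∀ f : G → ℝ, Continuous f → IsClassFunction f →
    Tendsto (mean fun v => f (x v)) atTop (𝓝 (∫ g, f g ∂ν))

/-- the same for the logarithmic density -/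
def ClassLogEquidistributed (x : HeightOneSpectrum (𝓞 K) → G) (ν : Measure G) : Prop :=
  ∀ f : G → ℝ, Continuous f → IsClassFunction f →
    Tendsto (logMean fun v => f (x v)) atTop (𝓝 (∫ g, f g ∂ν))

/-- The mean value of the character of `π` at the `x_v` is `k`: in the sense of the logarithmic
density, and for the primes with `q_v ≤ T`, `T → ∞`, if the mean value of the real or of the imaginary
part has a limit. -/
def CharacterMean (x : HeightOneSpectrum (𝓞 K) → G) {n : ℕ}
    (π : G →* Matrix.unitaryGroup (Fin n) ℂ) (k : ℤ) : Prop :=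
  Tendsto (logMean fun v => (character π (x v)).re) atTop (𝓝 (k : ℝ)) ∧
  Tendsto (logMean fun v => (character π (x v)).im) atTop (𝓝 0) ∧
  (∀ r : ℝ, Tendsto (mean fun v => (character π (x v)).re) atTop (𝓝 r) → r = k) ∧
  ∀ r : ℝ, Tendsto (mean fun v => (character π (x v)).im) atTop (𝓝 r) → r = 0

/-- every nontrivial irreducible `L`-function `L(π, s)` has a meromorphic continuation to a
neighbourhood of the point `1` -/
def AllContinued (x : HeightOneSpectrum (𝓞 K) → G) : Prop :=
  ∀ (n : ℕ) (π : G →* Matrix.unitaryGroup (Fin n) ℂ), IsNontrivialIrrep π →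
    ∃ k : ℤ, RepPoleOrder x π k

/-- every nontrivial irreducible `L`-function `L(π, s)` has a holomorphic continuation to a
neighbourhood of the point `1`, different from zero at `1` -/
def AllRegular (x : HeightOneSpectrum (𝓞 K) → G) : Prop :=
  ∀ (n : ℕ) (π : G →* Matrix.unitaryGroup (Fin n) ℂ), IsNontrivialIrrep π → RepPoleOrder x π 0

/-- The point `1` and the distribution of the conjugacy classes `x_v`; `μ` is the Haar measure.
* The order of the pole of `L(π, s)` at `1` is the mean value of the character.
* Equidistribution for `μ` gives equidistribution in the sense of the logarithmic density, and this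
  gives the order of the pole of `L(π, s)` at `1`: the multiplicity `∫ tr π dμ` of the trivial
  representation in `π`, so that it is zero for the nontrivial irreducible `π`.
* If all nontrivial irreducible `L(π, s)` have a meromorphic continuation to a neighbourhood of the
  point `1`, then the `x_v` have a limit distribution `ν` in the sense of the logarithmic density and
  `∫ tr π dν` is the order of the pole of `L(π, s)`; the `x_v` are equidistributed for `μ` in this sense
  if and only if no nontrivial irreducible `L(π, s)` has a zero or a pole at `1`; and they are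
  equidistributed for `μ` if and only if this holds and the mean values over the primes with `q_v ≤ T`
  have a limit for all continuous functions of the class. -/
def ClassLaw (x : HeightOneSpectrum (𝓞 K) → G) (μ : Measure G) : Prop :=
  (∀ (n : ℕ) (π : G →* Matrix.unitaryGroup (Fin n) ℂ) (k : ℤ), Continuous π →
    RepPoleOrder x π k → CharacterMean x π k) ∧
  (ClassEquidistributed x μ → ClassLogEquidistributed x μ) ∧
  (ClassLogEquidistributed x μ → ∀ (n : ℕ) (π : G →* Matrix.unitaryGroup (Fin n) ℂ) (k : ℤ),
    Continuous π → RepPoleOrder x π k → (k : ℂ) = ∫ g, character π g ∂μ ∧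
      (IsNontrivialIrrep π → k = 0)) ∧
  (AllContinued x →
    (∃ ν : Measure G, IsProbabilityMeasure ν ∧ ClassLogEquidistributed x ν ∧
      ∀ (n : ℕ) (π : G →* Matrix.unitaryGroup (Fin n) ℂ) (k : ℤ), Continuous π →
        RepPoleOrder x π k → (k : ℂ) = ∫ g, character π g ∂ν) ∧
    (ClassLogEquidistributed x μ ↔ AllRegular x) ∧
    (ClassEquidistributed x μ ↔ AllRegular x ∧ ∀ f : G → ℝ, Continuous f → IsClassFunction f →
      ∃ r : ℝ, Tendsto (mean fun v => f (x v)) atTop (𝓝 r)))

end

end Pool.Agent.TH129.ST
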