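import Pool.Agent.TH129.ST.Lift2
import Pool.Agent.TH129.ST.GrpDefs
import Mathlib.MeasureTheory.Integral.RieszMarkovKakutani.Real

/-!
# The distribution of conjugacy classes of a compact group and the point `1`
-/

set_option autoImplicit false
set_option linter.unusedSectionVars false

namespace Pool.Agent.TH129.ST

open Filter Topology Set Polynomial NumberField IsDedekindDomain MeasureTheory
open Pool.Agent.TH129.EM
open Pool.Agent.W353.SP (Bd Mn Hs EN mnN)
open Pool.Agent.W353.FB (EA mnA EA_lim)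
open scoped CompactlySupported
open Pool.Agent.TH553.ST (Dec Schur chi norm_chi chi_cls cont_chi int_chi exists_eig class_dense Coef
  coef_dense coef_cont cav dec_cav cav_class intg)

/-- **The theorem of Riesz.** -/
theorem exists_measure {Y : Type} [TopologicalSpace Y] [CompactSpace Y] [T2Space Y]
    [MeasurableSpace Y] [BorelSpace Y] (L : (Y → ℝ) → ℝ)
    (hadd : ∀ f g : Y → ℝ, Continuous f → Continuous g → L (fun y => f y + g y) = L f + L g)
    (hsmul : ∀ (c : ℝ) (f : Y → ℝ), Continuous f → L (fun y => c * f y) = c * L f)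
    (hpos : ∀ f : Y → ℝ, Continuous f → (∀ y, 0 ≤ f y) → 0 ≤ L f) (hone : L (fun _ => 1) = 1) :
    ∃ ν : Measure Y, IsProbabilityMeasure ν ∧ ∀ f : Y → ℝ, Continuous f → ∫ y, f y ∂ν = L f := by
  set Λ₀ : C_c(Y, ℝ) →ₗ[ℝ] ℝ :=
    { toFun := fun f => L f
      map_add' := fun f g => hadd f g f.continuous g.continuous
      map_smul' := fun c f => hsmul c f f.continuous } with hΛ₀
  set Λ : C_c(Y, ℝ) →ₚ[ℝ] ℝ := PositiveLinearMap.mk₀ Λ₀ fun f hf =>
    hpos f f.continuous fun y => hf y with hΛ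
  have h1 : ∀ f : Y → ℝ, Continuous f → ∫ y, f y ∂(RealRMK.rieszMeasure Λ) = L f := by
    intro f hf
    exact RealRMK.integral_rieszMeasure Λ
      ⟨⟨f, hf⟩, HasCompactSupport.of_compactSpace f⟩
  refine ⟨RealRMK.rieszMeasure Λ, ⟨?_⟩, h1⟩
  have h2 := h1 (fun _ => 1) continuous_const
  rw [hone, integral_const, smul_eq_mul, mul_one, measureReal_def] at h2
  rw [← ENNReal.toReal_eq_one_iff]
  exact h2

section
variable {K : Type} [Field K] [NumberField K]
  {G : Type} [Group G] [TopologicalSpace G] {x : HeightOneSpectrum (𝓞 K) → G}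

theorem schur_of {n : ℕ} {π : G →* Matrix.unitaryGroup (Fin n) ℂ} (h : IsNontrivialIrrep π) :
    Schur π := h.2.2

theorem unitSystemC {n : ℕ} {π : G →* Matrix.unitaryGroup (Fin n) ℂ}
    {B : HeightOneSpectrum (𝓞 K) → ℂ[X]} (h : ∀ᶠ v in cofinite, ∀ z : ℂ,
      (B v).eval z = (1 - z • (π (x v) : Matrix (Fin n) (Fin n) ℂ)).det)
    (h' : ∀ v, (B v).eval ((Ideal.absNorm v.asIdeal : ℂ) ^ (-(1 : ℂ))) ≠ 0) :
    IsUnitSystemC n B fun v => chi π (x v) := by
  refine ⟨?_, h'⟩
  filter_upwards [h] with v hv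
  obtain ⟨α, h1, h2, h3⟩ := exists_eig (π (x v)).2
  have hc : Fintype.card (Fin n) = n := Fintype.card_fin n
  refine ⟨fun j => α (Fin.cast hc.symm j), fun j => h1 _, ?_, fun z => ?_⟩
  · change (π (x v) : Matrix (Fin n) (Fin n) ℂ).trace = _
    rw [← h2]
    exact (Fintype.sum_equiv (finCongr hc.symm) _ _ fun j => rfl).symm
  · rw [hv, h3]
    exact (Fintype.prod_equiv (finCongr hc.symm) _ _ fun j => rfl).symm

/-- the analytic mean value of a character -/
theorem chi_EA {n : ℕ} {π : G →* Matrix.unitaryGroup (Fin n) ℂ} {k : ℤ}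
    (h : RepPoleOrder x π k) :
    Hs (𝓝[>] 1) (EA K) (fun v => (chi π (x v)).re) k ∧
    Hs (𝓝[>] 1) (EA K) (fun v => (chi π (x v)).im) 0 := by
  obtain ⟨B, h1, h2, h3⟩ := h
  exact order_complex (fun v => norm_chi π (x v)) (unitSystemC h1 h2) h3

theorem logMean_bd {f : HeightOneSpectrum (𝓞 K) → ℝ} (hf : Bd f) (r : ℝ) :
    Tendsto (logMean f) atTop (𝓝 r) ↔ Tendsto (fun s => EA K s f) (𝓝[>] 1) (𝓝 r) :=
  logMean_iff hf (Eventually.of_forall fun _ => rfl) r

theorem mean_bd {f : HeightOneSpectrum (𝓞 K) → ℝ} (hf : Bd f) {r : ℝ}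
    (h : Tendsto (mean f) atTop (𝓝 r)) : Tendsto (fun s => EA K s f) (𝓝[>] 1) (𝓝 r) :=
  EA_lim hf (mean_EN hf (Eventually.of_forall fun _ => rfl) h)

/-- **The order of the pole is the mean value of the character.** -/
theorem characterMean {n : ℕ} {π : G →* Matrix.unitaryGroup (Fin n) ℂ} {k : ℤ}
    (h : RepPoleOrder x π k) : CharacterMean x π k := by
  obtain ⟨h1, h2⟩ := chi_EA h
  refine ⟨(logMean_bd h1.1 _).mpr h1.2, (logMean_bd h2.1 _).mpr h2.2, fun r hr => ?_, fun r hr => ?_⟩
  · exact tendsto_nhds_unique (mean_bd h1.1 hr) h1.2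
  · exact tendsto_nhds_unique (mean_bd h2.1 hr) h2.2

variable [IsTopologicalGroup G] [CompactSpace G]

theorem bd_cont_x {f : G → ℝ} (hf : Continuous f) : Bd fun v => f (x v) := by
  obtain ⟨C, hC⟩ := isCompact_univ.exists_bound_of_continuousOn hf.continuousOn
  exact ⟨C, fun v => hC (x v) (Set.mem_univ _)⟩

variable [MeasurableSpace G] [BorelSpace G]
  {μ : Measure G} [IsProbabilityMeasure μ] [μ.IsHaarMeasure]

theorem re_int {ν : Measure G} [IsProbabilityMeasure ν] {F : G → ℂ} (hF : Continuous F) :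
    ∫ g, (F g).re ∂ν = (∫ g, F g ∂ν).re := by
  have h1 : Integrable F ν := hF.integrable_of_hasCompactSupport (HasCompactSupport.of_compactSpace F)
  exact integral_re h1

theorem im_int {ν : Measure G} [IsProbabilityMeasure ν] {F : G → ℂ} (hF : Continuous F) :
    ∫ g, (F g).im ∂ν = (∫ g, F g ∂ν).im := by
  have h1 : Integrable F ν := hF.integrable_of_hasCompactSupport (HasCompactSupport.of_compactSpace F)
  exact integral_im h1

theorem class_re {n : ℕ} (π : G →* Matrix.unitaryGroup (Fin n) ℂ) :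
    IsClassFunction fun g => (chi π g).re := fun g h =>
  congrArg Complex.re (chi_cls π g h)

theorem class_im {n : ℕ} (π : G →* Matrix.unitaryGroup (Fin n) ℂ) :
    IsClassFunction fun g => (chi π g).im := fun g h =>
  congrArg Complex.im (chi_cls π g h)

/-- the order of the pole from the distribution -/
theorem order_of_dist {ν : Measure G} [IsProbabilityMeasure ν] (hν : ClassLogEquidistributed x ν)
    {n : ℕ} {π : G →* Matrix.unitaryGroup (Fin n) ℂ} (hπ : Continuous π) {k : ℤ}
    (h : RepPoleOrder x π k) : (k : ℂ) = ∫ g, character π g ∂ν := by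
  obtain ⟨h1, h2⟩ := chi_EA h
  have hc := cont_chi hπ
  have h3 := hν _ (Complex.continuous_re.comp hc) (class_re π)
  have h4 := hν _ (Complex.continuous_im.comp hc) (class_im π)
  have h5 : (k : ℝ) = ∫ g, (chi π g).re ∂ν :=
    tendsto_nhds_unique h1.2 ((logMean_bd h1.1 _).mp h3)
  have h6 : (0 : ℝ) = ∫ g, (chi π g).im ∂ν :=
    tendsto_nhds_unique h2.2 ((logMean_bd h2.1 _).mp h4)
  change (k : ℂ) = ∫ g, chi π g ∂ν
  rw [re_int hc] at h5
  rw [im_int hc] at h6
  apply Complex.ext
  · rw [← h5, Complex.intCast_re]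
  · rw [← h6, Complex.intCast_im]

/-- the mean values of the combinations of characters -/
theorem hs_dec (hx : AllContinued x) {F : G → ℂ} (hF : Dec F) :
    ∃ r : ℝ, Hs (𝓝[>] 1) (EA K) (fun v => (F (x v)).re) r := by
  obtain ⟨J, _, m, ρ, a, h1, h2⟩ := hF
  have h3 : ∀ j, ∃ c : ℝ, Hs (𝓝[>] 1) (EA K) (fun v => (chi (ρ j) (x v)).re) c ∧
      Hs (𝓝[>] 1) (EA K) (fun v => (chi (ρ j) (x v)).im) 0 := by
    intro j
    by_cases hj : ∃ g, ρ j g ≠ 1
    · obtain ⟨k, hk⟩ := hx (m j) (ρ j) ⟨(h1 j).1, hj, (h1 j).2⟩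
      exact ⟨k, chi_EA hk⟩
    · rw [not_exists] at hj
      have h4 : ∀ g, chi (ρ j) g = m j := by
        intro g
        unfold chi
        rw [not_not.mp (hj g)]
        simp
      refine ⟨m j, ?_, ?_⟩
      · have h5 := (mnA K).hsMul (a := 1) (f := fun _ => 1) ⟨Bd.const 1, (mnA K).one⟩ (m j : ℝ)
        refine h5.congr (fun v => ?_) (mul_one _)
        rw [h4, Complex.natCast_re, mul_one]
      · have h5 := (mnA K).hsMul (a := 1) (f := fun _ => 1) ⟨Bd.const 1, (mnA K).one⟩ (0 : ℝ)
        refine h5.congr (fun v => ?_) (zero_mul _)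
        rw [h4, Complex.natCast_im, zero_mul]
  choose c hc1 hc2 using h3
  refine ⟨∑ j, ((a j).re * c j + (-(a j).im) * 0), ?_⟩
  have h4 := (mnA K).hsSum Finset.univ (f := fun j v => (a j).re * (chi (ρ j) (x v)).re +
    (-(a j).im) * (chi (ρ j) (x v)).im) (a := fun j => (a j).re * c j + (-(a j).im) * 0)
    fun j _ => (mnA K).hsAdd ((mnA K).hsMul (hc1 j) (a j).re) ((mnA K).hsMul (hc2 j) (-(a j).im))
  refine h4.congr (fun v => ?_) rfl
  rw [h2, Complex.re_sum]
  refine Finset.sum_congr rfl fun j _ => ?_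
  rw [Complex.mul_re]
  ring

/-- the mean values of the combinations of characters if there are no zeros and poles -/
theorem hs_dec_reg (hx : AllRegular x) {F : G → ℂ} (hF : Dec F) :
    Hs (𝓝[>] 1) (EA K) (fun v => (F (x v)).re) (∫ g, (F g).re ∂μ) := by
  obtain ⟨J, _, m, ρ, a, h1, h2⟩ := hF
  have h3 : ∀ j, ∃ c : ℝ, Hs (𝓝[>] 1) (EA K) (fun v => (chi (ρ j) (x v)).re) c ∧
      Hs (𝓝[>] 1) (EA K) (fun v => (chi (ρ j) (x v)).im) 0 ∧ ∫ g, chi (ρ j) g ∂μ = c := by
    intro j
    by_cases hj : ∃ g, ρ j g ≠ 1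
    · have h5 := hx (m j) (ρ j) ⟨(h1 j).1, hj, (h1 j).2⟩
      refine ⟨0, ?_, (chi_EA h5).2, ?_⟩
      · have := (chi_EA h5).1
        simpa using this
      · rw [int_chi (h1 j).1 (h1 j).2 hj, Complex.ofReal_zero]
    · rw [not_exists] at hj
      have h4 : ∀ g, chi (ρ j) g = m j := by
        intro g
        unfold chi
        rw [not_not.mp (hj g)]
        simp
      refine ⟨m j, ?_, ?_, ?_⟩
      · have h5 := (mnA K).hsMul (a := 1) (f := fun _ => 1) ⟨Bd.const 1, (mnA K).one⟩ (m j : ℝ)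
        refine h5.congr (fun v => ?_) (mul_one _)
        rw [h4, Complex.natCast_re, mul_one]
      · have h5 := (mnA K).hsMul (a := 1) (f := fun _ => 1) ⟨Bd.const 1, (mnA K).one⟩ (0 : ℝ)
        refine h5.congr (fun v => ?_) (zero_mul _)
        rw [h4, Complex.natCast_im, zero_mul]
      · simp only [h4]
        simp
  choose c hc1 hc2 hc3 using h3
  have hint : ∫ g, (F g).re ∂μ = ∑ j, ((a j).re * c j + (-(a j).im) * 0) := by
    have hcont : ∀ j, Continuous fun g => a j * chi (ρ j) g := fun j =>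
      continuous_const.mul (cont_chi (h1 j).1)
    have hFc : Continuous F := by
      have : F = fun g => ∑ j, a j * chi (ρ j) g := funext h2
      rw [this]
      exact continuous_finsetSum _ fun j _ => hcont j
    rw [re_int hFc]
    simp only [h2]
    rw [integral_finsetSum _ fun j _ => intg (hcont j), Complex.re_sum]
    refine Finset.sum_congr rfl fun j _ => ?_
    rw [integral_const_mul, hc3, Complex.re_mul_ofReal, mul_zero, add_zero]
  rw [hint]
  have h4 := (mnA K).hsSum Finset.univ (f := fun j v => (a j).re * (chi (ρ j) (x v)).re +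
    (-(a j).im) * (chi (ρ j) (x v)).im) (a := fun j => (a j).re * c j + (-(a j).im) * 0)
    fun j _ => (mnA K).hsAdd ((mnA K).hsMul (hc1 j) (a j).re) ((mnA K).hsMul (hc2 j) (-(a j).im))
  refine h4.congr (fun v => ?_) rfl
  rw [h2, Complex.re_sum]
  refine Finset.sum_congr rfl fun j _ => ?_
  rw [Complex.mul_re]
  ring

variable [T2Space G]

theorem cont_dec {F : G → ℂ} (hF : Dec F) : Continuous F := by
  obtain ⟨J, _, m, ρ, a, h1, h2⟩ := hF
  have : F = fun g => ∑ j, a j * chi (ρ j) g := funext h2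
  rw [this]
  exact continuous_finsetSum _ fun j _ => continuous_const.mul (cont_chi (h1 j).1)

/-- **Equidistribution if there are no zeros and poles.** -/
theorem log_of_regular (hx : AllRegular x) : ClassLogEquidistributed x μ := by
  intro f hf hcl
  have hb := bd_cont_x (x := x) hf
  refine (logMean_bd hb _).mpr (hs_limit_eq (mnA K) hb fun ε hε => ?_).2
  have hfC : Continuous fun g => (f g : ℂ) := Complex.continuous_ofReal.comp hf
  obtain ⟨F, hF, hFf⟩ := class_dense hfC (fun g k => by rw [hcl g k]) hε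
  refine ⟨_, _, hs_dec_reg (μ := μ) hx hF, fun v => ?_, ?_⟩
  · have h1 := (Complex.abs_re_le_norm ((f (x v) : ℂ) - F (x v))).trans (hFf (x v))
    rwa [Complex.sub_re, Complex.ofReal_re] at h1
  · have hFc := cont_dec hF
    have hFr : Continuous fun g => (F g).re := Complex.continuous_re.comp hFc
    rw [← integral_sub (intg hFr) (intg hf)]
    have h4 := norm_integral_le_of_norm_le_const (μ := μ)
      (f := fun g => (F g).re - f g) (C := ε) (Eventually.of_forall fun g => by
        have h1 := (Complex.abs_re_le_norm ((f g : ℂ) - F g)).trans (hFf g)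
        rw [Complex.sub_re, Complex.ofReal_re] at h1
        rw [Real.norm_eq_abs, abs_sub_comm]
        exact h1)
    rw [probReal_univ, mul_one] at h4
    exact h4

/-- **The limit distribution.** -/
theorem exists_dist (hx : AllContinued x) :
    ∃ ν : Measure G, IsProbabilityMeasure ν ∧ ClassLogEquidistributed x ν := by
  set ν₀ : Measure G := Measure.haarMeasure ⊤ with hν₀
  have hν1 : IsProbabilityMeasure ν₀ := ⟨by
    rw [hν₀]
    exact Measure.haarMeasure_self⟩
  set av : (G → ℝ) → G → ℝ := fun f g => ∫ h, f (h⁻¹ * g * h) ∂ν₀ with hav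
  have hcc : ∀ (f : G → ℝ) (g : G), Continuous f → Continuous fun h => f (h⁻¹ * g * h) :=
    fun f g hf => hf.comp ((continuous_inv.mul continuous_const).mul continuous_id)
  have hccC : ∀ (f : G → ℂ) (g : G), Continuous f → Continuous fun h => f (h⁻¹ * g * h) :=
    fun f g hf => hf.comp ((continuous_inv.mul continuous_const).mul continuous_id)
  have hbd : ∀ f : G → ℝ, Continuous f → ∃ C : ℝ, ∀ g, |av f g| ≤ C := by
    intro f hf
    obtain ⟨C, hC⟩ := isCompact_univ.exists_bound_of_continuousOn hf.continuousOn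
    refine ⟨C, fun g => ?_⟩
    have h4 := norm_integral_le_of_norm_le_const (μ := ν₀)
      (f := fun h => f (h⁻¹ * g * h)) (C := C)
      (Eventually.of_forall fun h => hC _ (Set.mem_univ _))
    rw [probReal_univ, mul_one] at h4
    exact h4
  have hlim : ∀ f : G → ℝ, Continuous f → ∃ r : ℝ, Hs (𝓝[>] 1) (EA K) (fun v => av f (x v)) r := by
    intro f hf
    obtain ⟨C, hC⟩ := hbd f hf
    refine hs_limit (mnA K) ⟨C, fun v => hC (x v)⟩ fun ε hε => ?_
    have hfC : Continuous fun g => (f g : ℂ) := Complex.continuous_ofReal.comp hf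
    obtain ⟨φ, h1, h2⟩ := coef_dense hfC hε
    obtain ⟨r, hr⟩ := hs_dec hx (dec_cav (μ := ν₀) h1)
    refine ⟨_, r, hr, fun v => ?_⟩
    have h3 : (av f (x v) : ℂ) = cav ν₀ (fun g => (f g : ℂ)) (x v) := by
      simp only [hav]
      unfold cav
      exact integral_ofReal.symm
    have h4 : ‖cav ν₀ (fun g => (f g : ℂ)) (x v) - cav ν₀ φ (x v)‖ ≤ ε := by
      unfold cav
      rw [← integral_sub (intg (hccC _ (x v) hfC)) (intg (hccC φ (x v) (coef_cont h1)))]
      have h5 := norm_integral_le_of_norm_le_const (μ := ν₀)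
        (f := fun h => (f (h⁻¹ * x v * h) : ℂ) - φ (h⁻¹ * x v * h)) (C := ε)
        (Eventually.of_forall fun h => h2 _)
      rw [probReal_univ, mul_one] at h5
      exact h5
    have h5 := (Complex.abs_re_le_norm (cav ν₀ (fun g => (f g : ℂ)) (x v) - cav ν₀ φ (x v))).trans h4
    rwa [Complex.sub_re, ← h3, Complex.ofReal_re] at h5
  choose! L hL using hlim
  have hu : ∀ (f : G → ℝ) (r : ℝ), Continuous f →
      Hs (𝓝[>] 1) (EA K) (fun v => av f (x v)) r → L f = r := fun f r hf hr =>
    tendsto_nhds_unique (hL f hf).2 hr.2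
  obtain ⟨ν, hν, hν2⟩ := exists_measure L
    (fun f g hf hg => by
      refine hu _ _ (hf.add hg) (((mnA K).hsAdd (hL f hf) (hL g hg)).congr (fun v => ?_) rfl)
      simp only [hav]
      rw [integral_add (intg (hcc f (x v) hf)) (intg (hcc g (x v) hg))])
    (fun c f hf => by
      refine hu _ _ (continuous_const.mul hf) (((mnA K).hsMul (hL f hf) c).congr (fun v => ?_) rfl)
      simp only [hav]
      rw [integral_const_mul])
    (fun f hf h0 => by
      refine ge_of_tendsto (hL f hf).2 ?_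
      have h1 := (mnA K).mono (fun v => 0 * 1) (fun v => av f (x v)) (Bd.const (0 * 1)) (hL f hf).1
        fun v => by
          rw [zero_mul]
          exact integral_nonneg fun h => h0 _
      filter_upwards [h1] with s hs
      have h2 := (mnA K).smul 0 (fun _ => 1) s
      rw [h2, zero_mul] at hs
      exact hs)
    (by
      refine hu _ _ continuous_const (Hs.congr (f := fun _ => 1) (a := 1) ⟨Bd.const 1, (mnA K).one⟩
        (fun v => ?_) rfl)
      simp only [hav]
      simp)
  refine ⟨ν, hν, fun f hf hcl => ?_⟩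
  have h1 : ∀ g, av f g = f g := by
    intro g
    simp only [hav]
    have h2 : ∀ k, f (k⁻¹ * g * k) = f g := by
      intro k
      have := hcl g k⁻¹
      rwa [inv_inv] at this
    simp only [h2]
    simp
  rw [hν2 f hf]
  have h2 := hL f hf
  simp only [h1] at h2
  exact (logMean_bd h2.1 _).mpr h2.2

/-- **The law of the classes.** -/
theorem classLaw (x : HeightOneSpectrum (𝓞 K) → G) : ClassLaw x μ := by
  have hEL : ClassEquidistributed x μ → ClassLogEquidistributed x μ := fun h f hf hcl =>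
    (logMean_bd (bd_cont_x hf) _).mpr (mean_bd (bd_cont_x hf) (h f hf hcl))
  have hk0 : ClassLogEquidistributed x μ → ∀ (n : ℕ) (π : G →* Matrix.unitaryGroup (Fin n) ℂ)
      (k : ℤ), Continuous π → RepPoleOrder x π k → (k : ℂ) = ∫ g, character π g ∂μ ∧
      (IsNontrivialIrrep π → k = 0) := by
    intro h n π k hπ hk
    have h1 := order_of_dist h hπ hk
    refine ⟨h1, fun hirr => ?_⟩
    have h2 : ∫ g, character π g ∂μ = 0 := int_chi hirr.1 (schur_of hirr) hirr.2.1
    rw [h2] at h1
    exact_mod_cast h1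
  refine ⟨fun n π k _ hk => characterMean hk, hEL, hk0, fun hx => ?_⟩
  have hreg : ClassLogEquidistributed x μ → AllRegular x := by
    intro h n π hirr
    obtain ⟨k, hk⟩ := hx n π hirr
    have h1 := (hk0 h n π k hirr.1 hk).2 hirr
    rwa [h1] at hk
  refine ⟨?_, ⟨hreg, log_of_regular⟩, ⟨fun h => ⟨hreg (hEL h), fun f hf hcl => ⟨_, h f hf hcl⟩⟩, ?_⟩⟩
  · obtain ⟨ν, h1, h2⟩ := exists_dist hx
    exact ⟨ν, h1, h2, fun n π k hπ hk => order_of_dist h2 hπ hk⟩
  · rintro ⟨h1, h2⟩ f hf hcl
    obtain ⟨r, hr⟩ := h2 f hf hcl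
    have h3 := (logMean_bd (bd_cont_x hf) _).mp (log_of_regular (μ := μ) h1 f hf hcl)
    have h4 := tendsto_nhds_unique (mean_bd (bd_cont_x hf) hr) h3
    rwa [h4] at hr

end

end Pool.Agent.TH129.ST
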