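import Pool.Agent.TH129.ST.Core
import Pool.Agent.TH553.ST.PW

/-!
# The argument of an Euler product of unitary matrices at the point `1`
-/

set_option autoImplicit false

namespace Pool.Agent.TH129.ST

open Filter Topology Set Polynomial NumberField IsDedekindDomain
open Pool.Agent.TH129.EM
open Pool.Agent.W353.SP (Bd Mn Hs EN mnN)
open Pool.Agent.W353.FB (EA mnA)
open Pool.Agent.TH553.ST (lg exp_lg lg_sub)
open Complex (I)

/-- a continuous function whose exponential is constant is constant -/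
theorem const_of_exp {S : Set ℝ} (hS : IsPreconnected S) {Ψ : ℝ → ℂ} (hc : ContinuousOn Ψ S) {c : ℂ}
    (h : ∀ x ∈ S, Complex.exp (Ψ x) = c) {x y : ℝ} (hx : x ∈ S) (hy : y ∈ S) : Ψ x = Ψ y := by
  have hT : IsDiscrete {z : ℂ | Complex.exp z = c} := by
    rw [isDiscrete_iff_discreteTopology]
    refine DiscreteTopology.of_forall_le_dist (r := 1) one_pos ?_
    rintro ⟨z, hz⟩ ⟨w, hw⟩ hne
    have hz' : Complex.exp z = c := hz
    have hw' : Complex.exp w = c := hw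
    have h1 : Complex.exp (z - w) = 1 := by
      rw [Complex.exp_sub, hz', ← hw', div_self (Complex.exp_ne_zero _)]
    obtain ⟨n, hn⟩ := Complex.exp_eq_one_iff.mp h1
    have hn0 : n ≠ 0 := by
      intro h0
      apply hne
      rw [h0, Int.cast_zero, zero_mul, sub_eq_zero] at hn
      exact Subtype.ext hn
    rw [Subtype.dist_eq, dist_eq_norm]
    change 1 ≤ ‖z - w‖
    rw [hn, norm_mul, norm_mul, norm_mul, Complex.norm_I, mul_one, Complex.norm_intCast,
      Complex.norm_real, Real.norm_of_nonneg Real.pi_pos.le, Complex.norm_ofNat]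
    have h2 : (1 : ℝ) ≤ |(n : ℝ)| := by
      have := Int.one_le_abs hn0
      exact_mod_cast this
    have h3 := Real.pi_gt_three
    nlinarith
  exact hS.constant_of_mapsTo hT hc (fun z hz => h z hz) hx hy

/-- The logarithm of a function that is a power times a continuous function. -/
theorem lift_limit {H u : ℝ → ℂ} {u0 : ℂ} (hu0 : u0 ≠ 0) {δ : ℝ} (hδ : 0 < δ)
    (hH : ContinuousOn H (Ioo 0 δ)) (hu : ContinuousOn u (Ioo 0 δ))
    (hlim : Tendsto u (𝓝[>] 0) (𝓝 u0)) {k : ℤ}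
    (h : ∀ ε ∈ Ioo 0 δ, Complex.exp (H ε) = ((ε : ℝ) : ℂ) ^ (-k) * u ε) :
    ∃ A : ℂ, Tendsto (fun ε : ℝ => H ε + k * Real.log ε) (𝓝[>] 0) (𝓝 A) := by
  have h1 : Tendsto (fun ε => u ε / u0) (𝓝[>] 0) (𝓝 1) := by
    have := hlim.div_const u0
    rwa [div_self hu0] at this
  have h2 : ∀ᶠ ε in 𝓝[>] (0 : ℝ), ‖u ε / u0 - 1‖ < 1 := by
    have h3 := (h1.sub_const 1).norm
    rw [sub_self, norm_zero] at h3
    exact h3.eventually_lt_const one_pos
  obtain ⟨δ', hδ', hsub⟩ := mem_nhdsGT_iff_exists_Ioo_subset.mp h2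
  have hδ'0 : (0 : ℝ) < δ' := hδ'
  set η := min δ δ' with hη
  have hη0 : 0 < η := lt_min hδ hδ'0
  have hsl : ∀ ε ∈ Ioo 0 η, u ε / u0 ∈ Complex.slitPlane := by
    intro ε hε
    have h3 : ‖u ε / u0 - 1‖ < 1 := hsub ⟨hε.1, hε.2.trans_le (min_le_right _ _)⟩
    have h4 := Complex.mem_slitPlane_of_norm_lt_one h3
    rwa [add_sub_cancel] at h4
  have hss : Ioo 0 η ⊆ Ioo 0 δ := Ioo_subset_Ioo_right (min_le_left _ _)
  set Ψ : ℝ → ℂ := fun ε => H ε + k * Real.log ε - Complex.log (u ε / u0) with hΨ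
  have hcont : ContinuousOn Ψ (Ioo 0 η) := by
    refine ((hH.mono hss).add ?_).sub ?_
    · refine continuousOn_const.mul (Complex.continuous_ofReal.comp_continuousOn ?_)
      exact Real.continuousOn_log.mono fun ε hε => hε.1.ne'
    · exact ((hu.mono hss).div_const u0).clog hsl
  have hexp : ∀ ε ∈ Ioo 0 η, Complex.exp (Ψ ε) = u0 := by
    intro ε hε
    have hε0 : (0 : ℝ) < ε := hε.1
    have hεC : ((ε : ℝ) : ℂ) ≠ 0 := by exact_mod_cast hε0.ne'
    have hdiv : u ε / u0 ≠ 0 := Complex.slitPlane_ne_zero (hsl ε hε)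
    have hune : u ε ≠ 0 := fun h0 => hdiv (by rw [h0, zero_div])
    have h3 : Complex.exp (k * Real.log ε) = ((ε : ℝ) : ℂ) ^ k := by
      rw [Complex.exp_int_mul, ← Complex.ofReal_exp, Real.exp_log hε0]
    simp only [hΨ]
    rw [Complex.exp_sub, Complex.exp_add, h ε (hss hε), h3, Complex.exp_log hdiv, zpow_neg]
    have h4 : ((ε : ℝ) : ℂ) ^ k ≠ 0 := zpow_ne_zero _ hεC
    field_simp
  have hmid : η / 2 ∈ Ioo 0 η := ⟨by positivity, by linarith⟩
  refine ⟨Ψ (η / 2), ?_⟩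
  have h5 : Tendsto (fun ε => Ψ (η / 2) + Complex.log (u ε / u0)) (𝓝[>] 0)
      (𝓝 (Ψ (η / 2) + Complex.log 1)) := by
    refine tendsto_const_nhds.add ?_
    exact (h1.clog (by simp))
  rw [Complex.log_one, add_zero] at h5
  refine h5.congr' ?_
  filter_upwards [Ioo_mem_nhdsGT hη0] with ε hε
  rw [← const_of_exp isPreconnected_Ioo hcont hexp hε hmid]
  simp only [hΨ]
  ring

section
variable {K : Type} [Field K] [NumberField K]

/-- `B v` is the polynomial `∏ (1 - w_j z)` with `‖w_j‖ = 1` and `∑ w_j = T v` for almost all `v` -/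
def IsUnitSystemC (N : ℕ) (B : HeightOneSpectrum (𝓞 K) → ℂ[X])
    (T : HeightOneSpectrum (𝓞 K) → ℂ) : Prop :=
  (∀ᶠ v in cofinite, ∃ w : Fin N → ℂ, (∀ j, ‖w j‖ = 1) ∧ T v = ∑ j, w j ∧
    ∀ z : ℂ, (B v).eval z = ∏ j, (1 - w j * z)) ∧
  ∀ v, (B v).eval ((Ideal.absNorm v.asIdeal : ℂ) ^ (-(1 : ℂ))) ≠ 0

theorem nq_cpow_norm (v : HeightOneSpectrum (𝓞 K)) (ε : ℝ) :
    ‖(nq v : ℂ) ^ (-((1 : ℂ) + ε))‖ = (nq v : ℝ) ^ (-(1 + ε)) := by
  rw [Complex.norm_natCast_cpow_of_pos (by have := nq_places.two_le v; omega)]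
  congr 1

theorem nq_rpow_le_half (v : HeightOneSpectrum (𝓞 K)) {ε : ℝ} (hε : 0 ≤ ε) :
    (nq v : ℝ) ^ (-(1 + ε)) ≤ 1 / 2 := by
  have hq : (2 : ℝ) ≤ nq v := by exact_mod_cast nq_places.two_le v
  have h5 : (nq v : ℝ) ^ (-(1 + ε)) ≤ (nq v : ℝ) ^ (-1 : ℝ) :=
    Real.rpow_le_rpow_of_exponent_le (by linarith) (by linarith)
  refine h5.trans ?_
  rw [Real.rpow_neg_one, one_div]
  exact inv_anti₀ (by norm_num) hq

theorem nq_cpow_cont (v : HeightOneSpectrum (𝓞 K)) :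
    Continuous fun ε : ℝ => (nq v : ℂ) ^ (-((1 : ℂ) + ε)) := by
  have hqC : (nq v : ℂ) ≠ 0 := by
    have h1 := nq_places.two_le v
    exact_mod_cast (by omega : nq v ≠ 0)
  exact Continuous.const_cpow (by fun_prop) (Or.inl hqC)

/-- **The sum over the primes that belongs to an Euler product of unitary matrices.** -/
theorem complex_law {N : ℕ} {B : HeightOneSpectrum (𝓞 K) → ℂ[X]}
    {T : HeightOneSpectrum (𝓞 K) → ℂ} (h : IsUnitSystemC N B T) {k : ℤ} (hk : HasPoleOrder B k) :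
    ∃ T' : HeightOneSpectrum (𝓞 K) → ℂ, (∀ᶠ v in cofinite, T v = T' v) ∧ (∀ v, ‖T' v‖ ≤ N) ∧
      ∃ A : ℂ, Tendsto (fun ε : ℝ => (∑' v, T' v * (nq v : ℂ) ^ (-((1 : ℂ) + ε))) +
        k * Real.log ε) (𝓝[>] 0) (𝓝 A) := by
  classical
  set G : HeightOneSpectrum (𝓞 K) → Prop := fun v => ∃ w : Fin N → ℂ, (∀ j, ‖w j‖ = 1) ∧
    T v = ∑ j, w j ∧ ∀ z : ℂ, (B v).eval z = ∏ j, (1 - w j * z) with hG
  have hgood : ∀ᶠ v in cofinite, G v := h.1
  have hbad : {v | ¬ G v}.Finite := Filter.eventually_cofinite.mp hgood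
  choose! w hw1 hw2 hw3 using fun (v : HeightOneSpectrum (𝓞 K)) (hv : G v) => hv
  set T' : HeightOneSpectrum (𝓞 K) → ℂ := fun v => if G v then T v else 0 with hT'
  set z : HeightOneSpectrum (𝓞 K) → ℝ → ℂ := fun v ε => (nq v : ℂ) ^ (-((1 : ℂ) + ε)) with hz
  set Lg : HeightOneSpectrum (𝓞 K) → ℝ → ℂ := fun v ε => if G v then lg (w v) (z v ε) else 0 with hLg
  have hT'n : ∀ v, ‖T' v‖ ≤ N := by
    intro v
    simp only [hT']
    split_ifs with hv
    · rw [hw2 v hv]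
      refine (norm_sum_le _ _).trans ?_
      simp [hw1 v hv]
    · rw [norm_zero]
      positivity
  have hzn : ∀ v ε, ‖z v ε‖ = (nq v : ℝ) ^ (-(1 + ε)) := fun v ε => nq_cpow_norm v ε
  have hzh : ∀ v (ε : ℝ), 0 ≤ ε → ‖z v ε‖ ≤ 1 / 2 := fun v ε hε => by
    rw [hzn]
    exact nq_rpow_le_half v hε
  have hzsq : ∀ v (ε : ℝ), 0 ≤ ε → ‖z v ε‖ ^ 2 ≤ (nq v : ℝ) ^ (-2 : ℝ) := by
    intro v ε hε
    rw [hzn]
    have hN1 : (1 : ℝ) ≤ nq v := by
      have := nq_places.two_le v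
      exact_mod_cast (by omega : 1 ≤ nq v)
    calc ((nq v : ℝ) ^ (-(1 + ε))) ^ 2 ≤ ((nq v : ℝ) ^ (-1 : ℝ)) ^ 2 := by
          refine pow_le_pow_left₀ (by positivity) ?_ 2
          exact Real.rpow_le_rpow_of_exponent_le hN1 (by linarith)
      _ = (nq v : ℝ) ^ (-2 : ℝ) := by
          rw [← Real.rpow_natCast, ← Real.rpow_mul (by positivity)]
          norm_num
  have hdiff : ∀ v (ε : ℝ), 0 ≤ ε → ‖Lg v ε - T' v * z v ε‖ ≤ N * (nq v : ℝ) ^ (-2 : ℝ) := by
    intro v ε hε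
    simp only [hLg, hT']
    split_ifs with hv
    · rw [hw2 v hv]
      exact (lg_sub (hw1 v hv) (hzh v ε hε)).trans
        (mul_le_mul_of_nonneg_left (hzsq v ε hε) (Nat.cast_nonneg _))
    · rw [zero_mul, sub_self, norm_zero]
      positivity
  have hsum2 : Summable fun v : HeightOneSpectrum (𝓞 K) => (N : ℝ) * (nq v : ℝ) ^ (-2 : ℝ) :=
    ((nq_places (K := K)).summable (fun n => nq_fiber n) (by norm_num)).mul_left _
  have hsum1 : ∀ ε : ℝ, 0 < ε → Summable fun v : HeightOneSpectrum (𝓞 K) =>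
      (N : ℝ) * (nq v : ℝ) ^ (-(1 + ε)) := fun ε hε =>
    ((nq_places (K := K)).summable (fun n => nq_fiber n)
      (show 1 < 1 + ε by linarith)).mul_left _
  have hTz : ∀ v ε, ‖T' v * z v ε‖ ≤ N * (nq v : ℝ) ^ (-(1 + ε)) := by
    intro v ε
    rw [norm_mul, hzn]
    exact mul_le_mul_of_nonneg_right (hT'n v) (by positivity)
  have hTsum : ∀ ε : ℝ, 0 < ε → Summable fun v => T' v * z v ε := fun ε hε =>
    Summable.of_norm_bounded (hsum1 ε hε) fun v => hTz v ε
  have hDsum : ∀ ε : ℝ, 0 ≤ ε → Summable fun v => Lg v ε - T' v * z v ε := fun ε hε =>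
    Summable.of_norm_bounded hsum2 fun v => hdiff v ε hε
  have hLsum : ∀ ε : ℝ, 0 < ε → Summable fun v => Lg v ε := fun ε hε => by
    refine ((hDsum ε hε.le).add (hTsum ε hε)).congr fun v => ?_
    ring
  -- continuity
  have hLcont : ∀ v, ContinuousOn (Lg v) (Ici 0) := by
    intro v
    simp only [hLg]
    split_ifs with hv
    · unfold lg
      refine continuousOn_finsetSum _ fun j _ => ContinuousOn.neg ?_
      refine ContinuousOn.clog ?_ ?_
      · exact (continuous_const.sub (continuous_const.mul (nq_cpow_cont v))).continuousOn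
      · intro ε hε
        have h1 : ‖-(w v j * z v ε)‖ < 1 := by
          rw [norm_neg, norm_mul, hw1 v hv, one_mul]
          exact (hzh v ε hε).trans_lt (by norm_num)
        have h2 := Complex.mem_slitPlane_of_norm_lt_one h1
        rwa [← sub_eq_add_neg] at h2
    · exact continuousOn_const
  have hHcont : ContinuousOn (fun ε => ∑' v, Lg v ε) (Ioi 0) := by
    intro ε0 hε0
    have hε0' : (0 : ℝ) < ε0 := hε0
    have h1 : ContinuousOn (fun ε => ∑' v, Lg v ε) (Ioi (ε0 / 2)) := by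
      refine continuousOn_tsum (u := fun v => (N : ℝ) * (nq v : ℝ) ^ (-2 : ℝ) +
        N * (nq v : ℝ) ^ (-(1 + ε0 / 2))) (fun v => (hLcont v).mono ?_)
        (hsum2.add (hsum1 _ (by positivity))) fun v ε hε => ?_
      · intro ε hε
        have : ε0 / 2 < ε := hε
        exact le_of_lt (by linarith : (0 : ℝ) < ε)
      · have hε1 : ε0 / 2 < ε := hε
        have h2 := hdiff v ε (by linarith)
        have h3 := hTz v ε
        have h4 : ‖Lg v ε‖ ≤ ‖Lg v ε - T' v * z v ε‖ + ‖T' v * z v ε‖ := by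
          have := norm_add_le (Lg v ε - T' v * z v ε) (T' v * z v ε)
          rwa [sub_add_cancel] at this
        have h5 : (nq v : ℝ) ^ (-(1 + ε)) ≤ (nq v : ℝ) ^ (-(1 + ε0 / 2)) := by
          refine Real.rpow_le_rpow_of_exponent_le ?_ (by linarith)
          have := nq_places.two_le v
          exact_mod_cast (by omega : 1 ≤ nq v)
        have h6 : (N : ℝ) * (nq v : ℝ) ^ (-(1 + ε)) ≤ N * (nq v : ℝ) ^ (-(1 + ε0 / 2)) :=
          mul_le_mul_of_nonneg_left h5 (Nat.cast_nonneg _)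
        linarith
    exact (h1.continuousAt (Ioi_mem_nhds (by linarith))).continuousWithinAt
  -- the factors at the bad places
  set P : ℝ → ℂ := fun ε => ∏ v ∈ hbad.toFinset, ((B v).eval (z v ε))⁻¹ with hP
  have hev : ∀ v, Continuous fun ε => (B v).eval (z v ε) := fun v =>
    (B v).continuous.comp (nq_cpow_cont v)
  have hne0 : ∀ v, (B v).eval (z v 0) ≠ 0 := by
    intro v
    have := h.2 v
    simp only [hz, Complex.ofReal_zero, add_zero]
    exact this
  have hneE : ∀ᶠ ε in 𝓝 (0 : ℝ), ∀ v ∈ hbad.toFinset, (B v).eval (z v ε) ≠ 0 := by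
    rw [Filter.eventually_all_finset]
    intro v _
    exact (hev v).continuousAt.eventually_ne (hne0 v)
  have hP0 : P 0 ≠ 0 := by
    simp only [hP]
    rw [Finset.prod_ne_zero_iff]
    exact fun v _ => inv_ne_zero (hne0 v)
  have hPc : ∀ ε : ℝ, (∀ v ∈ hbad.toFinset, (B v).eval (z v ε) ≠ 0) → ContinuousAt P ε := by
    intro ε hε
    simp only [hP]
    exact tendsto_finsetProd _ fun v hv => ((hev v).continuousAt.inv₀ (hε v hv))
  have hPne : ∀ ε : ℝ, (∀ v ∈ hbad.toFinset, (B v).eval (z v ε) ≠ 0) → P ε ≠ 0 := by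
    intro ε hε
    simp only [hP]
    rw [Finset.prod_ne_zero_iff]
    exact fun v hv => inv_ne_zero (hε v hv)
  -- the Euler product
  have heul : ∀ ε : ℝ, 0 < ε → eulerProduct B ((1 : ℂ) + ε) =
      Complex.exp (∑' v, Lg v ε) * P ε := by
    intro ε hε
    have h1 : HasProd (fun v => Complex.exp (Lg v ε)) (Complex.exp (∑' v, Lg v ε)) :=
      (hLsum ε hε).hasSum.cexp
    have h2 : HasProd (fun v => if v ∈ hbad.toFinset then ((B v).eval (z v ε))⁻¹ else 1)
        (∏ v ∈ hbad.toFinset, (if v ∈ hbad.toFinset then ((B v).eval (z v ε))⁻¹ else 1)) :=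
      hasProd_prod_of_ne_finset_one fun v hv => if_neg hv
    have h3 : ∏ v ∈ hbad.toFinset, (if v ∈ hbad.toFinset then ((B v).eval (z v ε))⁻¹ else 1) =
        P ε := Finset.prod_congr rfl fun v hv => if_pos hv
    rw [h3] at h2
    have h4 := h1.mul h2
    have h5 : (fun v => Complex.exp (Lg v ε) *
        (if v ∈ hbad.toFinset then ((B v).eval (z v ε))⁻¹ else 1)) =
        fun v => ((B v).eval ((Ideal.absNorm v.asIdeal : ℂ) ^ (-((1 : ℂ) + ε))))⁻¹ := by
      funext v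
      by_cases hv : G v
      · have hvb : v ∉ hbad.toFinset := by simpa using hv
        rw [if_neg hvb, mul_one]
        simp only [hLg]
        rw [if_pos hv, exp_lg (hw1 v hv) ((hzh v ε hε.le).trans_lt (by norm_num)), ← hw3 v hv]
        rfl
      · have hvb : v ∈ hbad.toFinset := by simpa using hv
        rw [if_pos hvb]
        simp only [hLg]
        rw [if_neg hv, Complex.exp_zero, one_mul]
        rfl
    rw [h5] at h4
    exact h4.tprod_eq
  -- the continuation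
  obtain ⟨Λ, hΛ, he, hord⟩ := hk
  obtain ⟨g, hg1, hg2, hg3⟩ := (meromorphicOrderAt_eq_int_iff hΛ).mp hord
  have hlin : Continuous fun ε : ℝ => (1 : ℂ) + ε := by fun_prop
  have hlin0 : Tendsto (fun ε : ℝ => (1 : ℂ) + ε) (𝓝 0) (𝓝 1) := by
    have h2 := hlin.tendsto 0
    simpa only [Complex.ofReal_zero, add_zero] using h2
  have hpath : Tendsto (fun ε : ℝ => (1 : ℂ) + ε) (𝓝[>] 0) (𝓝[≠] 1) := by
    rw [tendsto_nhdsWithin_iff]
    refine ⟨tendsto_nhdsWithin_of_tendsto_nhds hlin0, ?_⟩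
    filter_upwards [self_mem_nhdsWithin] with ε hε
    have hε0 : (0 : ℝ) < ε := hε
    rw [Set.mem_compl_iff, Set.mem_singleton_iff]
    intro h
    have : (ε : ℂ) = 0 := by simpa using h
    exact hε0.ne' (by exact_mod_cast this)
  have hgc : ∀ᶠ ε in 𝓝[>] (0 : ℝ), ContinuousAt (fun ε : ℝ => g ((1 : ℂ) + ε)) ε := by
    have h1 : ∀ᶠ s in 𝓝 (1 : ℂ), AnalyticAt ℂ g s := hg1.eventually_analyticAt
    filter_upwards [nhdsWithin_le_nhds (hlin0.eventually h1)] with ε hε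
    exact ContinuousAt.comp (f := fun ε : ℝ => (1 : ℂ) + ε) hε.continuousAt hlin.continuousAt
  have hall : ∀ᶠ ε in 𝓝[>] (0 : ℝ), (ContinuousAt (fun ε : ℝ => g ((1 : ℂ) + ε)) ε) ∧
      (∀ v ∈ hbad.toFinset, (B v).eval (z v ε) ≠ 0) ∧
      Complex.exp (∑' v, Lg v ε) = ((ε : ℝ) : ℂ) ^ (-k) * (g ((1 : ℂ) + ε) / P ε) := by
    filter_upwards [hgc, nhdsWithin_le_nhds hneE, hpath.eventually hg3,
      (tendsto_nhds_of_tendsto_nhdsWithin hpath).eventually he, self_mem_nhdsWithin]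
      with ε h1 h2 h3 h4 hε
    have hε0 : (0 : ℝ) < ε := hε
    refine ⟨h1, h2, ?_⟩
    have h5 : Λ ((1 : ℂ) + ε) = eulerProduct B ((1 : ℂ) + ε) := by
      refine h4 ?_
      rw [Complex.add_re, Complex.ofReal_re, Complex.one_re]
      linarith
    rw [h3, add_sub_cancel_left, heul ε hε0, smul_eq_mul] at h5
    rw [← mul_div_assoc, h5, mul_div_assoc, div_self (hPne ε h2), mul_one]
  obtain ⟨δ, hδ, hsub⟩ := mem_nhdsGT_iff_exists_Ioo_subset.mp hall
  have hδ0 : (0 : ℝ) < δ := hδ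
  obtain ⟨A, hA⟩ := lift_limit (H := fun ε => ∑' v, Lg v ε)
    (u := fun ε => g ((1 : ℂ) + ε) / P ε) (u0 := g 1 / P 0) (div_ne_zero hg2 hP0) hδ0
    (hHcont.mono fun ε hε => hε.1)
    (fun ε hε => ((hsub hε).1.div (hPc ε (hsub hε).2.1) (hPne ε (hsub hε).2.1)).continuousWithinAt)
    (by
      refine tendsto_nhdsWithin_of_tendsto_nhds ?_
      refine Tendsto.div ?_ (hPc 0 fun v _ => hne0 v).tendsto hP0
      exact hg1.continuousAt.tendsto.comp hlin0)
    (fun ε hε => (hsub hε).2.2)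
  -- the remainder
  have hrem : Tendsto (fun ε : ℝ => ∑' v, (Lg v ε - T' v * z v ε)) (𝓝[>] 0)
      (𝓝 (∑' v, (Lg v 0 - T' v * z v 0))) := by
    refine tendsto_tsum_of_dominated_convergence hsum2 (fun v => ?_) ?_
    · refine Tendsto.sub ?_ ?_
      · exact ((hLcont v) 0 (by simp)).tendsto.mono_left (nhdsWithin_mono _ Ioi_subset_Ici_self)
      · exact tendsto_nhdsWithin_of_tendsto_nhds
          ((continuous_const.mul (nq_cpow_cont v)).tendsto 0)
    · filter_upwards [self_mem_nhdsWithin] with ε hε v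
      exact hdiff v ε (le_of_lt hε)
  refine ⟨T', ?_, hT'n, A - ∑' v, (Lg v 0 - T' v * z v 0), ?_⟩
  · filter_upwards [hgood] with v hv
    simp only [hT']
    rw [if_pos hv]
  · refine (hA.sub hrem).congr' ?_
    filter_upwards [self_mem_nhdsWithin] with ε hε
    have hε0 : (0 : ℝ) < ε := hε
    rw [(hLsum ε hε0).tsum_sub (hTsum ε hε0)]
    ring

end

end Pool.Agent.TH129.ST
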