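import Pool.Agent.TH129.ST.Lift
import Pool.Agent.TH129.ST.Weier

/-!
# Mean values of the traces and the point `1`
-/

set_option autoImplicit false

namespace Pool.Agent.TH129.ST

open Filter Topology Set Polynomial NumberField IsDedekindDomain
open Pool.Agent.TH129.EM
open Pool.Agent.W353.SP (Bd Mn Hs EN mnN)
open Pool.Agent.W353.FB (EA mnA)

section
variable {K : Type} [Field K] [NumberField K]

theorem exp_edge {C : ℝ} (hC : 0 ≤ C) {a : HeightOneSpectrum (𝓞 K) → ℝ} (ha : ∀ v, |a v| ≤ C) :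
    Edge (HeightOneSpectrum (𝓞 K)) nq (fun v ε => Real.exp (a v / nq v * (nq v : ℝ) ^ (-ε)))
      (fun ε => Real.exp (∑' v, a v / nq v * (nq v : ℝ) ^ (-ε))) (fun v => a v / nq v) := by
  have hpos : ∀ v : HeightOneSpectrum (𝓞 K), (0 : ℝ) < nq v := fun v => nq_cast_pos v
  refine ⟨nq_places, ?_, ⟨fun _ => 0, summable_zero, ?_⟩, fun v => Real.exp_pos _, fun v => ?_, ?_⟩
  · refine ⟨_, (nq_places (K := K)).fiber_bound (M := C) hC nq_pp nq_fiber fun v => ?_⟩
    rw [abs_div, abs_of_pos (hpos v)]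
    exact div_le_div_of_nonneg_right (ha v) (hpos v).le
  · refine Eventually.of_forall fun ε v => ⟨Real.exp_pos _, ?_⟩
    rw [Real.log_exp, sub_self, abs_zero]
  · refine tendsto_nhdsWithin_of_tendsto_nhds ?_
    have h1 : Continuous fun ε : ℝ => Real.exp (a v / nq v * (nq v : ℝ) ^ (-ε)) := by
      refine Real.continuous_exp.comp (continuous_const.mul ?_)
      exact Real.continuous_const_rpow (hpos v).ne' |>.comp continuous_neg
    exact h1.tendsto 0
  · filter_upwards [self_mem_nhdsWithin] with ε hε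
    have hε0 : (0 : ℝ) < ε := hε
    have h1 : Summable fun v : HeightOneSpectrum (𝓞 K) => a v / nq v * (nq v : ℝ) ^ (-ε) := by
      refine Summable.of_norm_bounded (((nq_places (K := K)).summable (fun n => nq_fiber n)
        (show 1 < 1 + ε by linarith)).mul_left C) fun v => ?_
      rw [norm_mul, norm_div, Real.norm_of_nonneg (hpos v).le,
        Real.norm_of_nonneg (Real.rpow_nonneg (hpos v).le (-ε)), Real.norm_eq_abs]
      have h2 : (nq v : ℝ) ^ (-(1 + ε)) = (nq v : ℝ)⁻¹ * (nq v : ℝ) ^ (-ε) := by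
        rw [← Real.rpow_neg_one, ← Real.rpow_add (hpos v)]
        congr 1
        ring
      rw [h2, div_eq_mul_inv, mul_assoc]
      exact mul_le_mul_of_nonneg_right (ha v) (mul_nonneg (inv_nonneg.mpr (hpos v).le)
        (Real.rpow_nonneg (hpos v).le _))
    exact h1.hasSum.rexp

/-- logarithmic mean values from the behaviour at the edge -/
theorem logMean_of_edge {C : ℝ} {a : HeightOneSpectrum (𝓞 K) → ℝ} (ha : ∀ v, |a v| ≤ C) {k A : ℝ}
    (h : Tendsto (fun ε : ℝ => (∑' v, a v / nq v * (nq v : ℝ) ^ (-ε)) + k * Real.log ε) (𝓝[>] 0)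
      (𝓝 A)) : Tendsto (logMean a) atTop (𝓝 k) := by
  have ha' : ∀ v, |a v| ≤ |C| := fun v => (ha v).trans (le_abs_self C)
  have hedge := exp_edge (abs_nonneg C) ha'
  have hlim : Tendsto (fun ε : ℝ =>
      Real.log (Real.exp (∑' v, a v / nq v * (nq v : ℝ) ^ (-ε))) + k * Real.log ε) (𝓝[>] 0)
      (𝓝 A) := by
    simp only [Real.log_exp]
    exact h
  have h1 := (hedge.log_avg hlim).comp Real.tendsto_log_atTop
  refine h1.congr' ?_
  filter_upwards [eventually_gt_atTop 0] with x hx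
  have e : logMean a x = sumUpTo (fun v => a v * Real.log (Ideal.absNorm v.asIdeal : ℝ) /
      (Ideal.absNorm v.asIdeal : ℝ)) x / Real.log x := rfl
  rw [e, Function.comp_apply, sumUpTo_eq _ hx]
  congr 1
  refine Finset.sum_congr rfl fun v _ => ?_
  have h2 : (Ideal.absNorm v.asIdeal : ℝ) = (nq v : ℝ) := rfl
  rw [h2]
  ring

theorem nq_cpow_real (v : HeightOneSpectrum (𝓞 K)) (ε : ℝ) :
    (nq v : ℂ) ^ (-((1 : ℂ) + ε)) = (((nq v : ℝ)⁻¹ * (nq v : ℝ) ^ (-ε) : ℝ) : ℂ) := by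
  have hpos : (0 : ℝ) < nq v := nq_cast_pos v
  have h2 : (nq v : ℝ) ^ (-(1 + ε)) = (nq v : ℝ)⁻¹ * (nq v : ℝ) ^ (-ε) := by
    rw [← Real.rpow_neg_one, ← Real.rpow_add hpos]
    congr 1
    ring
  rw [← h2, Complex.ofReal_cpow hpos.le]
  push_cast
  rfl

/-- **The trace and the order of the pole at `1`.** -/
theorem order_complex {N : ℕ} {B : HeightOneSpectrum (𝓞 K) → ℂ[X]}
    {T : HeightOneSpectrum (𝓞 K) → ℂ} (hT : ∀ v, ‖T v‖ ≤ N) (h : IsUnitSystemC N B T) {k : ℤ}
    (hk : HasPoleOrder B k) :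
    Hs (𝓝[>] 1) (EA K) (fun v => (T v).re) k ∧ Hs (𝓝[>] 1) (EA K) (fun v => (T v).im) 0 := by
  obtain ⟨T', hTT, hT'n, A, hA⟩ := complex_law h hk
  have hpos : ∀ v : HeightOneSpectrum (𝓞 K), (0 : ℝ) < nq v := fun v => nq_cast_pos v
  have hsum : ∀ ε : ℝ, 0 < ε → Summable fun v => T' v * (nq v : ℂ) ^ (-((1 : ℂ) + ε)) := by
    intro ε hε
    refine Summable.of_norm_bounded (((nq_places (K := K)).summable (fun n => nq_fiber n)
      (show 1 < 1 + ε by linarith)).mul_left (N : ℝ)) fun v => ?_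
    rw [norm_mul, nq_cpow_norm]
    exact mul_le_mul_of_nonneg_right (hT'n v) (by positivity)
  have hre : Tendsto (fun ε : ℝ => (∑' v, (T' v).re / nq v * (nq v : ℝ) ^ (-ε)) +
      k * Real.log ε) (𝓝[>] 0) (𝓝 A.re) := by
    refine ((Complex.continuous_re.tendsto A).comp hA).congr' ?_
    filter_upwards [self_mem_nhdsWithin] with ε hε
    have hε0 : (0 : ℝ) < ε := hε
    rw [Function.comp_apply, Complex.add_re, Complex.re_tsum (hsum ε hε0)]
    congr 1
    · refine tsum_congr fun v => ?_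
      rw [nq_cpow_real, Complex.re_mul_ofReal]
      ring
    · rw [show ((k : ℂ) * ((Real.log ε : ℝ) : ℂ)) = (((k : ℝ) * Real.log ε : ℝ) : ℂ) by push_cast; rfl,
        Complex.ofReal_re]
  have him : Tendsto (fun ε : ℝ => (∑' v, (T' v).im / nq v * (nq v : ℝ) ^ (-ε)) +
      0 * Real.log ε) (𝓝[>] 0) (𝓝 A.im) := by
    refine ((Complex.continuous_im.tendsto A).comp hA).congr' ?_
    filter_upwards [self_mem_nhdsWithin] with ε hε
    have hε0 : (0 : ℝ) < ε := hε
    rw [Function.comp_apply, Complex.add_im, Complex.im_tsum (hsum ε hε0)]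
    congr 1
    · refine tsum_congr fun v => ?_
      rw [nq_cpow_real, Complex.im_mul_ofReal]
      ring
    · rw [show ((k : ℂ) * ((Real.log ε : ℝ) : ℂ)) = (((k : ℝ) * Real.log ε : ℝ) : ℂ) by push_cast; rfl,
        Complex.ofReal_im, zero_mul]
  have hbr : ∀ v, |(T' v).re| ≤ N := fun v => (Complex.abs_re_le_norm _).trans (hT'n v)
  have hbi : ∀ v, |(T' v).im| ≤ N := fun v => (Complex.abs_im_le_norm _).trans (hT'n v)
  have hb : Bd fun v => (T v).re := ⟨N, fun v => (Complex.abs_re_le_norm _).trans (hT v)⟩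
  have hb2 : Bd fun v => (T v).im := ⟨N, fun v => (Complex.abs_im_le_norm _).trans (hT v)⟩
  refine ⟨⟨hb, ?_⟩, ⟨hb2, ?_⟩⟩
  · have h1 := logMean_of_edge hbr hre
    refine (logMean_iff (f := fun v => (T' v).re) hb ?_ _).mp h1
    filter_upwards [hTT] with v hv
    rw [hv]
  · have h1 := logMean_of_edge hbi him
    refine (logMean_iff (f := fun v => (T' v).im) hb2 ?_ _).mp h1
    filter_upwards [hTT] with v hv
    rw [hv]

end

end Pool.Agent.TH129.ST
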